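import Mathlib

/-!
Tools for polynomials on the Boolean cube: a pair of nonnegative low degree functions with product
zero is separated by a shallow decision tree, and shallow decision trees have small covariance
with functions of small `L¹` influences.
-/

set_option autoImplicit false

namespace Pool.Agent.H285R2.PolyCompat

open Finset

/-- The sign of a bit. -/
def sg (b : Bool) : ℝ := if b then -1 else 1

/-- The character of `S`. -/
def chi {N : ℕ} (S : Finset (Fin N)) (x : Fin N → Bool) : ℝ := ∏ i ∈ S, sg (x i)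

/-- Flip the bits in `B`. -/
def flip {N : ℕ} (B : Finset (Fin N)) (x : Fin N → Bool) : Fin N → Bool :=
  fun i => if i ∈ B then !(x i) else x i

/-- Overwrite the bits in `S` by those of `r`. -/
def ovr {N : ℕ} (S : Finset (Fin N)) (r x : Fin N → Bool) : Fin N → Bool :=
  fun i => if i ∈ S then r i else x i

/-- Average over the cube. -/
noncomputable def E {N : ℕ} (h : (Fin N → Bool) → ℝ) : ℝ := (∑ x, h x) / 2 ^ N

/-- Functions of degree at most `k`. -/
def Deg (N k : ℕ) : Submodule ℝ ((Fin N → Bool) → ℝ) :=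
  Submodule.span ℝ {f | ∃ S : Finset (Fin N), S.card ≤ k ∧ f = chi S}

lemma sg_sq (b : Bool) : sg b * sg b = 1 := by cases b <;> simp [sg]

lemma sg_not (b : Bool) : sg (!b) = - sg b := by cases b <;> simp [sg]

lemma sg_abs (b : Bool) : |sg b| = 1 := by cases b <;> simp [sg]

variable {N : ℕ}

lemma chi_sq (S : Finset (Fin N)) (x : Fin N → Bool) : chi S x * chi S x = 1 := by
  unfold chi
  rw [← Finset.prod_mul_distrib]
  exact Finset.prod_eq_one (fun i _ => sg_sq _)

lemma chi_union (S T : Finset (Fin N)) (h : Disjoint S T) (x : Fin N → Bool) :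
    chi (S ∪ T) x = chi S x * chi T x := by
  unfold chi
  rw [Finset.prod_union h]

lemma chi_mul (S T : Finset (Fin N)) (x : Fin N → Bool) :
    chi S x * chi T x = chi (symmDiff S T) x := by
  have h1 : S = (S \ T) ∪ (S ∩ T) := by ext i; simp; tauto
  have h2 : T = (T \ S) ∪ (S ∩ T) := by ext i; simp; tauto
  have hd1 : Disjoint (S \ T) (S ∩ T) := by
    rw [Finset.disjoint_left]; intro i; simp; tauto
  have hd2 : Disjoint (T \ S) (S ∩ T) := by
    rw [Finset.disjoint_left]; intro i; simp; tauto
  have hd3 : Disjoint (S \ T) (T \ S) := by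
    rw [Finset.disjoint_left]; intro i; simp; tauto
  have h3 : symmDiff S T = (S \ T) ∪ (T \ S) := by ext i; simp [Finset.mem_symmDiff]
  rw [h3, chi_union _ _ hd3]
  have e1 : chi S x = chi (S \ T) x * chi (S ∩ T) x := by
    rw [← chi_union _ _ hd1, ← h1]
  have e2 : chi T x = chi (T \ S) x * chi (S ∩ T) x := by
    rw [← chi_union _ _ hd2, ← h2]
  rw [e1, e2]
  have := chi_sq (S ∩ T) x
  calc _ = chi (S \ T) x * chi (T \ S) x * (chi (S ∩ T) x * chi (S ∩ T) x) := by ring
    _ = _ := by rw [this, mul_one]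

lemma chi_flip (S B : Finset (Fin N)) (x : Fin N → Bool) :
    chi S (flip B x) = (-1) ^ (S ∩ B).card * chi S x := by
  unfold chi
  have : ∀ i ∈ S, sg (flip B x i) = (if i ∈ B then -1 else 1) * sg (x i) := by
    intro i _
    unfold flip
    split_ifs with h
    · rw [sg_not]; ring
    · ring
  rw [Finset.prod_congr rfl this, Finset.prod_mul_distrib]
  congr 1
  rw [Finset.prod_ite]
  simp [Finset.filter_mem_eq_inter]

lemma chi_abs (S : Finset (Fin N)) (x : Fin N → Bool) : |chi S x| = 1 := by
  unfold chi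
  rw [Finset.abs_prod]
  exact Finset.prod_eq_one (fun i _ => sg_abs _)

lemma flip_flip (B : Finset (Fin N)) (x : Fin N → Bool) : flip B (flip B x) = x := by
  funext i
  unfold flip
  split_ifs <;> simp

lemma sum_flip (B : Finset (Fin N)) (h : (Fin N → Bool) → ℝ) :
    ∑ x, h (flip B x) = ∑ x, h x := by
  apply Finset.sum_bij' (fun x _ => flip B x) (fun x _ => flip B x)
  · intros; simp
  · intros; simp
  · intros; exact flip_flip _ _
  · intros; exact flip_flip _ _
  · intros; rfl

lemma E_chi (S : Finset (Fin N)) : E (chi S) = if S = ∅ then 1 else 0 := by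
  unfold E
  split_ifs with h
  · subst h
    simp [chi]
  · obtain ⟨i, hi⟩ := Finset.nonempty_iff_ne_empty.mpr h
    have h1 : ∑ x, chi S (flip {i} x) = ∑ x, chi S x := sum_flip _ _
    have h2 : ∀ x, chi S (flip {i} x) = - chi S x := by
      intro x
      rw [chi_flip]
      have : S ∩ {i} = {i} := by
        ext j; simp; rintro rfl; exact hi
      rw [this]; simp
    simp only [h2, Finset.sum_neg_distrib] at h1
    have : ∑ x, chi S x = 0 := by linarith
    rw [this]; simp

lemma E_add (f g : (Fin N → Bool) → ℝ) : E (fun x => f x + g x) = E f + E g := by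
  unfold E; rw [Finset.sum_add_distrib, add_div]

lemma E_sub (f g : (Fin N → Bool) → ℝ) : E (fun x => f x - g x) = E f - E g := by
  unfold E; rw [Finset.sum_sub_distrib, sub_div]

lemma E_smul (c : ℝ) (g : (Fin N → Bool) → ℝ) : E (fun x => c * g x) = c * E g := by
  unfold E; rw [← Finset.mul_sum, mul_div_assoc]

lemma E_sum {ι : Type*} (s : Finset ι) (f : ι → (Fin N → Bool) → ℝ) :
    E (fun x => ∑ j ∈ s, f j x) = ∑ j ∈ s, E (f j) := by
  unfold E; rw [Finset.sum_comm, Finset.sum_div]

lemma E_const (c : ℝ) : E (fun _ : Fin N → Bool => c) = c := by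
  unfold E; simp

lemma E_mono {f g : (Fin N → Bool) → ℝ} (h : ∀ x, f x ≤ g x) : E f ≤ E g := by
  unfold E
  gcongr with x
  exact h x

lemma E_nonneg {f : (Fin N → Bool) → ℝ} (h : ∀ x, 0 ≤ f x) : 0 ≤ E f := by
  unfold E
  have := Finset.sum_nonneg (s := Finset.univ) (fun x _ => h x)
  positivity

lemma abs_E_le (f : (Fin N → Bool) → ℝ) : |E f| ≤ E (fun x => |f x|) := by
  unfold E
  rw [abs_div, abs_of_pos (by positivity : (0:ℝ) < 2 ^ N)]
  gcongr
  exact Finset.abs_sum_le_sum_abs _ _

lemma E_flip (B : Finset (Fin N)) (h : (Fin N → Bool) → ℝ) : E (fun x => h (flip B x)) = E h := by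
  unfold E; rw [sum_flip]

lemma parseval (c : Finset (Fin N) → ℝ) :
    E (fun x => (∑ S, c S * chi S x) ^ 2) = ∑ S, c S ^ 2 := by
  have h1 : ∀ x : Fin N → Bool, (∑ S, c S * chi S x) ^ 2 =
      ∑ S, ∑ T, (c S * c T) * chi (symmDiff S T) x := by
    intro x
    rw [sq, Finset.sum_mul_sum]
    refine Finset.sum_congr rfl fun S _ => Finset.sum_congr rfl fun T _ => ?_
    rw [← chi_mul]; ring
  simp only [h1]
  rw [E_sum]
  refine Finset.sum_congr rfl fun S _ => ?_
  rw [E_sum]
  simp only [E_smul, E_chi]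
  rw [Finset.sum_eq_single S]
  · simp; ring
  · intro T _ hT
    rw [if_neg, mul_zero]
    intro h
    apply hT
    have := symmDiff_eq_bot.mp (by simpa using h)
    exact this.symm
  · simp

end Pool.Agent.H285R2.PolyCompat
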