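import Mathlib
import Pool.Agent.H285R2.PolyCompat

set_option autoImplicit false

namespace Pool.Agent.H285R2.PolyCompat

open Finset

variable {N : ℕ}

lemma chi_mem {k : ℕ} (S : Finset (Fin N)) (h : S.card ≤ k) : chi S ∈ Deg N k :=
  Submodule.subset_span ⟨S, h, rfl⟩

lemma Deg_mono {k l : ℕ} (h : k ≤ l) : Deg N k ≤ Deg N l := by
  apply Submodule.span_mono
  rintro f ⟨S, hS, rfl⟩
  exact ⟨S, hS.trans h, rfl⟩

lemma Deg_mul {k l : ℕ} {f g : (Fin N → Bool) → ℝ} (hf : f ∈ Deg N k) (hg : g ∈ Deg N l) :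
    f * g ∈ Deg N (k + l) := by
  have h1 : f * g ∈ Deg N k * Deg N l := Submodule.mul_mem_mul hf hg
  unfold Deg at h1
  rw [Submodule.span_mul_span] at h1
  refine Submodule.span_mono ?_ h1
  rintro _ ⟨_, ⟨S, hS, rfl⟩, _, ⟨T, hT, rfl⟩, rfl⟩
  refine ⟨symmDiff S T, ?_, ?_⟩
  · have : symmDiff S T ⊆ S ∪ T := by
      intro i; simp [Finset.mem_symmDiff]; tauto
    calc _ ≤ (S ∪ T).card := Finset.card_le_card this
      _ ≤ S.card + T.card := Finset.card_union_le _ _
      _ ≤ k + l := by omega
  · funext x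
    exact chi_mul S T x

lemma chi_ovr (S T : Finset (Fin N)) (r x : Fin N → Bool) :
    chi T (ovr S r x) = chi (T ∩ S) r * chi (T \ S) x := by
  have h1 : T = (T ∩ S) ∪ (T \ S) := by ext i; simp; tauto
  have hd : Disjoint (T ∩ S) (T \ S) := by
    rw [Finset.disjoint_left]; intro i; simp; tauto
  have h2 : chi T (ovr S r x) = chi (T ∩ S) (ovr S r x) * chi (T \ S) (ovr S r x) := by
    rw [← chi_union _ _ hd, ← h1]
  rw [h2]
  congr 1
  · unfold chi
    refine Finset.prod_congr rfl fun i hi => ?_
    simp at hi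
    simp [ovr, hi.2]
  · unfold chi
    refine Finset.prod_congr rfl fun i hi => ?_
    simp at hi
    simp [ovr, hi.2]

lemma Deg_ovr {k : ℕ} {f : (Fin N → Bool) → ℝ} (hf : f ∈ Deg N k) (S : Finset (Fin N))
    (r : Fin N → Bool) : (fun x => f (ovr S r x)) ∈ Deg N k := by
  unfold Deg at hf
  induction hf using Submodule.span_induction with
  | mem f h =>
    obtain ⟨T, hT, rfl⟩ := h
    have : (fun x => chi T (ovr S r x)) = (chi (T ∩ S) r) • chi (T \ S) := by
      funext x; simp [chi_ovr]
    rw [this]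
    apply Submodule.smul_mem
    apply chi_mem
    exact (Finset.card_le_card Finset.sdiff_subset).trans hT
  | zero => exact Submodule.zero_mem _
  | add f g _ _ h1 h2 => exact Submodule.add_mem _ h1 h2
  | smul c f _ h1 => exact Submodule.smul_mem _ c h1

lemma Deg_ovr_sub {k : ℕ} {f : (Fin N → Bool) → ℝ} (hf : f ∈ Deg N (k + 1)) (S : Finset (Fin N))
    (r r' : Fin N → Bool) : (fun x => f (ovr S r x) - f (ovr S r' x)) ∈ Deg N k := by
  unfold Deg at hf
  induction hf using Submodule.span_induction with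
  | mem f h =>
    obtain ⟨T, hT, rfl⟩ := h
    by_cases hTS : T ∩ S = ∅
    · have : (fun x => chi T (ovr S r x) - chi T (ovr S r' x)) = 0 := by
        funext x
        rw [chi_ovr, chi_ovr, hTS]
        simp [chi]
      rw [this]; exact Submodule.zero_mem _
    · have : (fun x => chi T (ovr S r x) - chi T (ovr S r' x)) =
          (chi (T ∩ S) r - chi (T ∩ S) r') • chi (T \ S) := by
        funext x; simp [chi_ovr]; ring
      rw [this]
      apply Submodule.smul_mem
      apply chi_mem
      have h1 := Finset.card_inter_add_card_sdiff T S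
      have h2 : 0 < (T ∩ S).card := Finset.card_pos.mpr (Finset.nonempty_iff_ne_empty.mpr hTS)
      omega
  | zero => 
    simp only [Pi.zero_apply, sub_zero]
    exact Submodule.zero_mem _
  | add f g _ _ h1 h2 =>
    have := Submodule.add_mem _ h1 h2
    convert this using 1
    funext x; simp; ring
  | smul c f _ h1 =>
    have := Submodule.smul_mem _ c h1
    convert this using 1
    funext x; simp; ring

lemma Deg_zero {f : (Fin N → Bool) → ℝ} (hf : f ∈ Deg N 0) : ∃ c, ∀ x, f x = c := by
  unfold Deg at hf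
  induction hf using Submodule.span_induction with
  | mem f h =>
    obtain ⟨T, hT, rfl⟩ := h
    have : T = ∅ := by simpa using hT
    subst this
    exact ⟨1, fun x => by simp [chi]⟩
  | zero => exact ⟨0, fun x => rfl⟩
  | add f g _ _ h1 h2 =>
    obtain ⟨a, ha⟩ := h1
    obtain ⟨b, hb⟩ := h2
    exact ⟨a + b, fun x => by simp [ha, hb]⟩
  | smul c f _ h1 =>
    obtain ⟨a, ha⟩ := h1
    exact ⟨c * a, fun x => by simp [ha]⟩

lemma alt_sum {k : ℕ} {f : (Fin N → Bool) → ℝ} (hf : f ∈ Deg N k) (x : Fin N → Bool)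
    (B : Finset (Fin N)) (hB : k < B.card) :
    ∑ C ∈ B.powerset, (-1) ^ C.card * f (flip C x) = 0 := by
  unfold Deg at hf
  induction hf using Submodule.span_induction with
  | mem f h =>
    obtain ⟨S, hS, rfl⟩ := h
    have h1 : ∀ C ∈ B.powerset, (-1 : ℝ) ^ C.card * chi S (flip C x) =
        chi S x * ∏ i ∈ C, (if i ∈ S then (1:ℝ) else -1) := by
      intro C _
      rw [chi_flip]
      have h2 : ∏ i ∈ C, (if i ∈ S then (1:ℝ) else -1) = (-1) ^ C.card * (-1) ^ (S ∩ C).card := by
        have h3 : ∀ i ∈ C, (if i ∈ S then (1:ℝ) else -1) = (-1) * (if i ∈ S then (-1:ℝ) else 1) := by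
          intro i _; split_ifs <;> ring
        rw [Finset.prod_congr rfl h3, Finset.prod_mul_distrib]
        congr 1
        · simp
        · rw [Finset.prod_ite]
          simp [Finset.filter_mem_eq_inter, Finset.inter_comm]
      rw [h2]; ring
    rw [Finset.sum_congr rfl h1, ← Finset.mul_sum, ← Finset.prod_one_add]
    have : ∃ i ∈ B, i ∉ S := by
      by_contra hcon
      push Not at hcon
      have := Finset.card_le_card (show B ⊆ S from hcon)
      omega
    obtain ⟨i, hiB, hiS⟩ := this
    rw [Finset.prod_eq_zero hiB (by simp [hiS]), mul_zero]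
  | zero => simp
  | add f g _ _ h1 h2 =>
    simp only [Pi.add_apply, mul_add, Finset.sum_add_distrib, h1, h2, add_zero]
  | smul c f _ h1 =>
    have : ∀ C : Finset (Fin N), (-1 : ℝ) ^ C.card * (c • f) (flip C x) =
        c * ((-1) ^ C.card * f (flip C x)) := by
      intro C; simp; ring
    simp only [this, ← Finset.mul_sum, h1, mul_zero]

lemma block_card {k : ℕ} {f : (Fin N → Bool) → ℝ} (hf : f ∈ Deg N k) (x : Fin N → Bool)
    (B : Finset (Fin N)) (h0 : ∀ C, C ⊂ B → f (flip C x) = 0) (h1 : f (flip B x) ≠ 0) :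
    B.card ≤ k := by
  by_contra hcon
  push Not at hcon
  have h2 := alt_sum hf x B hcon
  rw [Finset.sum_eq_single B] at h2
  · have : ((-1 : ℝ)) ^ B.card ≠ 0 := by positivity
    exact (mul_ne_zero this h1) h2
  · intro C hC hCB
    rw [h0 C (Finset.ssubset_iff_subset_ne.mpr ⟨Finset.mem_powerset.mp hC, hCB⟩), mul_zero]
  · intro h; exact absurd (Finset.mem_powerset_self B) h

open Polynomial in
lemma markov_zero {k : ℕ} {p : Polynomial ℝ} (hd : p.natDegree ≤ k) {M : ℝ} (hM : 0 < M)
    (hb : ∀ t ∈ Set.Icc (0:ℝ) 1, 0 ≤ p.eval t ∧ p.eval t ≤ M) :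
    - (derivative p).eval 0 ≤ k ^ 2 * M := by
  set q : ℝ[X] := C (2 / M) * p.comp (C (1/2) * (1 - X)) - 1 with hq
  have hqdeg : q.degree ≤ k := by
    have h1 : (C (1/2 : ℝ) * (1 - X) : ℝ[X]).natDegree ≤ 1 := by
      refine (natDegree_C_mul_le _ _).trans ?_
      refine (natDegree_sub_le _ _).trans ?_
      simp
    have h2 : (p.comp (C (1/2) * (1 - X))).natDegree ≤ k := by
      refine natDegree_comp_le.trans ?_
      calc _ ≤ k * 1 := Nat.mul_le_mul hd h1
        _ = k := mul_one k
    have h3 : q.natDegree ≤ k := by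
      rw [hq]
      refine (natDegree_sub_le _ _).trans ?_
      simp only [natDegree_one]
      refine max_le ((natDegree_C_mul_le _ _).trans h2) (Nat.zero_le _)
    exact natDegree_le_iff_degree_le.mp h3
  have hqb : ∀ x ∈ Set.Icc (-1 : ℝ) 1, |q.eval x| ≤ 1 := by
    intro x hx
    have h1 := hb ((1 - x)/2) ⟨by linarith [hx.2], by linarith [hx.1]⟩
    have h2 : q.eval x = 2 / M * p.eval ((1-x)/2) - 1 := by
      have h3 : 1 / 2 * (1 - x) = (1 - x) / 2 := by ring
      rw [hq]
      simp only [eval_sub, eval_mul, eval_C, eval_comp, eval_one, eval_X, h3]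
    rw [h2, abs_le]
    constructor
    · have : 0 ≤ 2 / M * p.eval ((1-x)/2) := mul_nonneg (by positivity) h1.1
      linarith
    · have : 2 / M * p.eval ((1-x)/2) ≤ 2 / M * M := by
        apply mul_le_mul_of_nonneg_left h1.2 (by positivity)
      have h3 : 2 / M * M = 2 := by field_simp
      linarith
  have h4 := Polynomial.Chebyshev.eval_iterate_derivative_le_of_forall_abs_le_one (k := 1)
    (le_refl (1:ℝ)) hqdeg hqb
  simp only [Function.iterate_one] at h4
  rw [Polynomial.Chebyshev.T_derivative_eq_U] at h4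
  have h5 : (derivative q).eval 1 = - (derivative p).eval 0 / M := by
    rw [hq]
    simp [derivative_comp, eval_comp]
    field_simp
  rw [h5] at h4
  simp only [eval_mul, Polynomial.Chebyshev.U_eval_one] at h4
  have h6 : - (derivative p).eval 0 / M ≤ k ^ 2 := by
    calc _ ≤ _ := h4
      _ = (k:ℝ)^2 := by simp; ring
  rwa [div_le_iff₀ hM] at h6

lemma card_inter_sup (S : Finset (Fin N)) (F J : Finset (Finset (Fin N)))
    (hF : (F : Set (Finset (Fin N))).PairwiseDisjoint id) (hJ : J ⊆ F) :
    (S ∩ J.sup id).card = ∑ B ∈ J, (S ∩ B).card := by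
  have h1 : S ∩ J.sup id = J.biUnion (fun B => S ∩ B) := by
    ext i; simp only [Finset.mem_inter, Finset.mem_sup, Finset.mem_biUnion, id]
    constructor
    · rintro ⟨h, B, hB, hi⟩; exact ⟨B, hB, h, hi⟩
    · rintro ⟨B, hB, h, hi⟩; exact ⟨h, B, hB, hi⟩
  rw [h1, Finset.card_biUnion]
  intro B hB C hC hBC
  have h2 : Disjoint B C := hF (hJ hB) (hJ hC) hBC
  exact Finset.disjoint_of_subset_left Finset.inter_subset_right
    (Finset.disjoint_of_subset_right Finset.inter_subset_right h2)

open Polynomial in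
lemma symm_poly {k : ℕ} {f : (Fin N → Bool) → ℝ} (hf : f ∈ Deg N k) (x : Fin N → Bool)
    (F : Finset (Finset (Fin N))) (hF : (F : Set (Finset (Fin N))).PairwiseDisjoint id) :
    ∃ p : ℝ[X], p.natDegree ≤ k ∧
      (∀ t : ℝ, p.eval t = ∑ J ∈ F.powerset,
        t ^ J.card * (1 - t) ^ (F \ J).card * f (flip (J.sup id) x)) ∧
      (derivative p).eval 0 = ∑ B ∈ F, (f (flip B x) - f x) := by
  unfold Deg at hf
  induction hf using Submodule.span_induction with
  | mem f h =>
    obtain ⟨S, hS, rfl⟩ := h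
    set n := (F.filter (fun B => Odd (S ∩ B).card)).card with hn
    have hsign : ∀ B : Finset (Fin N), ((-1 : ℝ)) ^ (S ∩ B).card =
        if Odd (S ∩ B).card then -1 else 1 := by
      intro B
      split_ifs with h
      · exact Odd.neg_one_pow h
      · exact Even.neg_one_pow (Nat.not_odd_iff_even.mp h)
    refine ⟨C (chi S x) * (1 - 2 * X) ^ n, ?_, ?_, ?_⟩
    · refine (natDegree_C_mul_le _ _).trans ?_
      refine natDegree_pow_le.trans ?_
      have h1 : (1 - 2 * X : ℝ[X]).natDegree ≤ 1 := by
        refine (natDegree_sub_le _ _).trans ?_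
        simp only [natDegree_one]
        refine max_le (Nat.zero_le _) ?_
        exact (natDegree_mul_le).trans (by simp)
      have h2 : n ≤ S.card := by
        have h3 : n ≤ ∑ B ∈ F.filter (fun B => Odd (S ∩ B).card), (S ∩ B).card := by
          rw [hn, Finset.card_eq_sum_ones]
          apply Finset.sum_le_sum
          intro B hB
          simp only [Finset.mem_filter] at hB
          exact hB.2.pos
        rw [← card_inter_sup S F _ hF (Finset.filter_subset _ _)] at h3
        exact h3.trans (Finset.card_le_card Finset.inter_subset_left)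
      calc n * _ ≤ k * 1 := Nat.mul_le_mul (h2.trans hS) h1
        _ = k := mul_one k
    · intro t
      have h1 : ∀ J ∈ F.powerset, t ^ J.card * (1 - t) ^ (F \ J).card * chi S (flip (J.sup id) x) =
          chi S x * ((∏ B ∈ J, (t * (-1) ^ (S ∩ B).card)) * ∏ B ∈ F \ J, (1 - t)) := by
        intro J hJ
        rw [chi_flip, card_inter_sup S F J hF (Finset.mem_powerset.mp hJ),
          Finset.prod_mul_distrib, Finset.prod_pow_eq_pow_sum]
        simp
        ring
      rw [Finset.sum_congr rfl h1, ← Finset.mul_sum, ← Finset.prod_add]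
      simp only [eval_mul, eval_C, eval_pow, eval_sub, eval_one, eval_X, eval_ofNat]
      congr 1
      have h2 : ∀ B ∈ F, (t * (-1) ^ (S ∩ B).card + (1 - t)) =
          if Odd (S ∩ B).card then (1 - 2 * t) else 1 := by
        intro B _
        rw [hsign]; split_ifs <;> ring
      rw [Finset.prod_congr rfl h2, Finset.prod_ite]
      simp [hn]
    · have h1 : (derivative (C (chi S x) * (1 - 2 * X) ^ n)).eval 0 = chi S x * (n * (-2)) := by
        simp [derivative_pow]
      rw [h1]
      have h2 : ∀ B ∈ F, chi S (flip B x) - chi S x =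
          chi S x * (if Odd (S ∩ B).card then -2 else 0) := by
        intro B _
        rw [chi_flip, hsign]; split_ifs <;> ring
      rw [Finset.sum_congr rfl h2, ← Finset.mul_sum, Finset.sum_ite]
      simp [hn]
  | zero => exact ⟨0, by simp, by simp, by simp⟩
  | add f g _ _ h1 h2 =>
    obtain ⟨p, hp1, hp2, hp3⟩ := h1
    obtain ⟨q, hq1, hq2, hq3⟩ := h2
    refine ⟨p + q, (natDegree_add_le _ _).trans (max_le hp1 hq1), ?_, ?_⟩
    · intro t
      rw [eval_add, hp2, hq2, ← Finset.sum_add_distrib]
      refine Finset.sum_congr rfl fun J _ => ?_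
      simp; ring
    · rw [derivative_add, eval_add, hp3, hq3, ← Finset.sum_add_distrib]
      refine Finset.sum_congr rfl fun J _ => ?_
      simp; ring
  | smul c f _ h1 =>
    obtain ⟨p, hp1, hp2, hp3⟩ := h1
    refine ⟨C c * p, (natDegree_C_mul_le _ _).trans hp1, ?_, ?_⟩
    · intro t
      rw [eval_mul, eval_C, hp2, Finset.mul_sum]
      refine Finset.sum_congr rfl fun J _ => ?_
      simp; ring
    · simp only [derivative_mul, derivative_C, zero_mul, zero_add, eval_mul, eval_C, hp3,
        Finset.mul_sum]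
      refine Finset.sum_congr rfl fun J _ => ?_
      simp; ring

lemma family_card {k : ℕ} {P : (Fin N → Bool) → ℝ} (hP : P ∈ Deg N k) (hP0 : ∀ y, 0 ≤ P y)
    (x : Fin N → Bool) (hmax : ∀ y, P y ≤ P x) (hpos : 0 < P x)
    (F : Finset (Finset (Fin N))) (hF : (F : Set (Finset (Fin N))).PairwiseDisjoint id)
    (hz : ∀ B ∈ F, P (flip B x) = 0) : F.card ≤ k ^ 2 := by
  obtain ⟨p, hp1, hp2, hp3⟩ := symm_poly hP x F hF
  have h1 : ∀ t : ℝ, ∑ J ∈ F.powerset, t ^ J.card * (1 - t) ^ (F \ J).card = 1 := by
    intro t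
    have := Finset.prod_add (fun _ => t) (fun _ => 1 - t) F
    simp only [Finset.prod_const] at this
    rw [← this]; simp
  have h2 : ∀ t ∈ Set.Icc (0:ℝ) 1, 0 ≤ p.eval t ∧ p.eval t ≤ P x := by
    intro t ht
    have ht0 : 0 ≤ t := ht.1
    have ht1 : 0 ≤ 1 - t := by linarith [ht.2]
    rw [hp2]
    constructor
    · apply Finset.sum_nonneg
      intro J _
      have := hP0 (flip (J.sup id) x)
      positivity
    · calc _ ≤ ∑ J ∈ F.powerset, t ^ J.card * (1 - t) ^ (F \ J).card * P x := by
            apply Finset.sum_le_sum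
            intro J _
            apply mul_le_mul_of_nonneg_left (hmax _)
            positivity
        _ = P x := by rw [← Finset.sum_mul, h1, one_mul]
  have h3 := markov_zero hp1 hpos h2
  rw [hp3] at h3
  have h4 : ∑ B ∈ F, (P (flip B x) - P x) = - (F.card * P x) := by
    have : ∀ B ∈ F, P (flip B x) - P x = - P x := by
      intro B hB; rw [hz B hB]; ring
    rw [Finset.sum_congr rfl this]; simp
  rw [h4, neg_neg] at h3
  have h5 : (F.card : ℝ) ≤ k ^ 2 := le_of_mul_le_mul_right h3 hpos
  exact_mod_cast h5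

end Pool.Agent.H285R2.PolyCompat
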