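import Mathlib
import Pool.Agent.H285R2.PolyCompat2

set_option autoImplicit false

namespace Pool.Agent.H285R2.PolyCompat

open Finset

variable {N : ℕ}

/-- If `P Q = 0`, then `Q` vanishes on a subcube of small codimension through a maximum of `P`. -/
lemma block_lemma {k l : ℕ} {P Q : (Fin N → Bool) → ℝ} (hP : P ∈ Deg N k) (hQ : Q ∈ Deg N l)
    (hP0 : ∀ y, 0 ≤ P y) (x : Fin N → Bool) (hmax : ∀ y, P y ≤ P x) (hpos : 0 < P x)
    (hPQ : ∀ y, P y = 0 ∨ Q y = 0) :
    ∃ S : Finset (Fin N), S.card ≤ k ^ 2 * l ∧ ∀ y, (∀ i ∈ S, y i = x i) → Q y = 0 := by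
  classical
  set G : Finset (Finset (Finset (Fin N))) := Finset.univ.filter (fun F =>
    (F : Set (Finset (Fin N))).PairwiseDisjoint id ∧ ∀ B ∈ F, B.card ≤ l ∧ Q (flip B x) ≠ 0) with hG
  have hGne : G.Nonempty := ⟨∅, by simp [hG]⟩
  obtain ⟨F, hFG, hFmax⟩ := Finset.exists_max_image G Finset.card hGne
  have hFG' := hFG
  rw [hG, Finset.mem_filter] at hFG'
  obtain ⟨-, hdis, hB⟩ := hFG'
  have hcard : F.card ≤ k ^ 2 := by
    apply family_card hP hP0 x hmax hpos F hdis
    intro B hBF
    exact (hPQ _).resolve_right (hB B hBF).2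
  refine ⟨F.sup id, ?_, ?_⟩
  · calc (F.sup id).card ≤ ∑ B ∈ F, B.card := by
          rw [Finset.sup_eq_biUnion]; exact Finset.card_biUnion_le
      _ ≤ ∑ B ∈ F, l := Finset.sum_le_sum (fun B hBF => (hB B hBF).1)
      _ = F.card * l := by simp
      _ ≤ k ^ 2 * l := Nat.mul_le_mul_right l hcard
  · intro y hy
    by_contra hne
    -- the set where y differs from x
    set D : Finset (Fin N) := Finset.univ.filter (fun i => y i ≠ x i) with hD
    have hflip : flip D x = y := by
      funext i
      unfold flip
      by_cases h : y i = x i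
      · rw [if_neg (by simp [hD, h]), h]
      · rw [if_pos (by simp [hD, h])]
        cases hx : x i <;> cases hy' : y i <;> simp_all
    have hex : ∃ C : Finset (Fin N), C ⊆ D ∧ Q (flip C x) ≠ 0 ∧
        ∀ C', C' ⊂ C → Q (flip C' x) = 0 := by
      have h1 : (D.powerset.filter (fun C => Q (flip C x) ≠ 0)).Nonempty :=
        ⟨D, by simp [hflip, hne]⟩
      obtain ⟨C, hC, hCmin⟩ := Finset.exists_min_image _ Finset.card h1
      rw [Finset.mem_filter, Finset.mem_powerset] at hC
      refine ⟨C, hC.1, hC.2, ?_⟩
      intro C' hC'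
      by_contra h2
      have h3 := hCmin C' (by
        rw [Finset.mem_filter, Finset.mem_powerset]
        exact ⟨hC'.1.trans hC.1, h2⟩)
      have h4 := Finset.card_lt_card hC'
      omega
    obtain ⟨C, hCD, hCne, hCmin⟩ := hex
    have hCcard : C.card ≤ l := block_card hQ x C hCmin hCne
    have hCnonempty : C.Nonempty := by
      rw [Finset.nonempty_iff_ne_empty]
      rintro rfl
      apply hCne
      have : flip ∅ x = x := by funext i; simp [flip]
      rw [this]
      exact (hPQ x).resolve_left hpos.ne'
    have hCdis : ∀ B ∈ F, Disjoint B C := by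
      intro B hBF
      rw [Finset.disjoint_left]
      intro i hiB hiC
      have h1 := hCD hiC
      rw [hD, Finset.mem_filter] at h1
      apply h1.2
      apply hy
      rw [Finset.mem_sup]
      exact ⟨B, hBF, hiB⟩
    have hCF : C ∉ F := by
      intro h
      have := hCdis C h
      rw [disjoint_self] at this
      exact hCnonempty.ne_empty this
    have hnew : insert C F ∈ G := by
      rw [hG, Finset.mem_filter]
      refine ⟨Finset.mem_univ _, ?_, ?_⟩
      · rw [Finset.coe_insert]
        apply hdis.insert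
        intro B hBF _
        exact (hCdis B hBF).symm
      · intro B hB'
        rw [Finset.mem_insert] at hB'
        rcases hB' with rfl | h
        · exact ⟨hCcard, hCne⟩
        · exact hB B h
    have h5 := hFmax _ hnew
    rw [Finset.card_insert_of_notMem hCF] at h5
    omega

/-- Overwrite one bit. -/
def upd (i : Fin N) (b : Bool) (x : Fin N → Bool) : Fin N → Bool := fun j => if j = i then b else x j

/-- Functions with values in `[0,1]` computed by a decision tree of depth `D`. -/
def DT : ℕ → ((Fin N → Bool) → ℝ) → Prop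
  | 0, a => ∃ c : ℝ, 0 ≤ c ∧ c ≤ 1 ∧ ∀ x, a x = c
  | D + 1, a => (∃ c : ℝ, 0 ≤ c ∧ c ≤ 1 ∧ ∀ x, a x = c) ∨
      ∃ i : Fin N, ∀ b : Bool, DT D (fun x => a (upd i b x))

lemma DT_const (D : ℕ) (c : ℝ) (h0 : 0 ≤ c) (h1 : c ≤ 1) : DT D (fun _ : Fin N → Bool => c) := by
  cases D with
  | zero => exact ⟨c, h0, h1, fun _ => rfl⟩
  | succ D => exact Or.inl ⟨c, h0, h1, fun _ => rfl⟩

lemma DT_succ {D : ℕ} : ∀ {a : (Fin N → Bool) → ℝ}, DT D a → DT (D + 1) a := by
  induction D with
  | zero => intro a h; exact Or.inl h
  | succ D ih =>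
    intro a h
    rcases h with h | ⟨i, h⟩
    · exact Or.inl h
    · exact Or.inr ⟨i, fun b => ih (h b)⟩

lemma DT_mono {D D' : ℕ} (h : D ≤ D') {a : (Fin N → Bool) → ℝ} (ha : DT D a) : DT D' a := by
  induction h with
  | refl => exact ha
  | step _ ih => exact DT_succ ih

lemma DT_ovr {D : ℕ} : ∀ {a : (Fin N → Bool) → ℝ}, DT D a → ∀ (S : Finset (Fin N))
    (r : Fin N → Bool), DT D (fun x => a (ovr S r x)) := by
  induction D with
  | zero =>
    intro a h S r
    obtain ⟨c, h0, h1, h2⟩ := h
    exact ⟨c, h0, h1, fun x => h2 _⟩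
  | succ D ih =>
    intro a h S r
    rcases h with ⟨c, h0, h1, h2⟩ | ⟨i, h⟩
    · exact Or.inl ⟨c, h0, h1, fun x => h2 _⟩
    · by_cases hi : i ∈ S
      · have h3 := ih (h (r i)) S r
        have h4 : (fun x => a (upd i (r i) (ovr S r x))) = fun x => a (ovr S r x) := by
          funext x
          congr 1
          funext j
          unfold upd
          split_ifs with hj
          · subst hj; simp [ovr, hi]
          · rfl
        rw [h4] at h3
        exact DT_succ h3
      · right
        refine ⟨i, fun b => ?_⟩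
        have h3 := ih (h b) S r
        have h4 : (fun x => a (upd i b (ovr S r x))) = fun x => a (ovr S r (upd i b x)) := by
          funext x
          congr 1
          funext j
          unfold upd ovr
          by_cases hj : j = i
          · subst hj; simp [hi]
          · simp [hj]
        rw [h4] at h3
        exact h3

lemma DT_query {D : ℕ} (S : Finset (Fin N)) : ∀ {a : (Fin N → Bool) → ℝ},
    (∀ r : Fin N → Bool, DT D (fun x => a (ovr S r x))) → DT (D + S.card) a := by
  induction S using Finset.induction_on with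
  | empty =>
    intro a h
    have := h (fun _ => false)
    have h2 : (fun x => a (ovr ∅ (fun _ => false) x)) = a := by
      funext x; congr 1
    rw [h2] at this
    simpa using this
  | insert i S hi ih =>
    intro a h
    rw [Finset.card_insert_of_notMem hi, ← add_assoc]
    right
    refine ⟨i, fun b => ih fun r => ?_⟩
    have h3 := h (upd i b r)
    have h4 : (fun x => a (ovr (insert i S) (upd i b r) x)) = fun x => a (upd i b (ovr S r x)) := by
      funext x
      congr 1
      funext j
      unfold upd ovr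
      by_cases hj : j = i
      · subst hj; simp
      · simp [hj]
    rw [h4] at h3
    exact h3

/-- The separating decision tree. -/
lemma separate {k : ℕ} (l : ℕ) : ∀ {P Q : (Fin N → Bool) → ℝ}, P ∈ Deg N k → Q ∈ Deg N l →
    (∀ y, 0 ≤ P y) → (∀ y, P y = 0 ∨ Q y = 0) →
    ∃ a : (Fin N → Bool) → ℝ, DT (k ^ 2 * l * l) a ∧ (∀ y, a y = 0 ∨ a y = 1) ∧
      (∀ y, a y = 0 → P y = 0) ∧ (∀ y, a y = 1 → Q y = 0) := by
  induction l with
  | zero =>
    intro P Q hP hQ hP0 hPQ
    obtain ⟨c, hc⟩ := Deg_zero hQ
    by_cases h : c = 0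
    · exact ⟨fun _ => 1, DT_const _ 1 (by norm_num) le_rfl, fun y => Or.inr rfl,
        fun y h => by norm_num at h, fun y _ => by rw [hc, h]⟩
    · refine ⟨fun _ => 0, DT_const _ 0 le_rfl (by norm_num), fun y => Or.inl rfl,
        fun y _ => ?_, fun y h => by norm_num at h⟩
      exact (hPQ y).resolve_right (by rw [hc]; exact h)
  | succ l ih =>
    intro P Q hP hQ hP0 hPQ
    by_cases hPz : ∀ y, P y = 0
    · exact ⟨fun _ => 0, DT_const _ 0 le_rfl (by norm_num), fun y => Or.inl rfl,
        fun y _ => hPz y, fun y h => by norm_num at h⟩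
    push Not at hPz
    obtain ⟨y0, hy0⟩ := hPz
    obtain ⟨x, -, hx⟩ := Finset.exists_max_image Finset.univ P ⟨y0, Finset.mem_univ _⟩
    have hmax : ∀ y, P y ≤ P x := fun y => hx y (Finset.mem_univ _)
    have hpos : 0 < P x := lt_of_lt_of_le (lt_of_le_of_ne (hP0 y0) (Ne.symm hy0)) (hmax y0)
    obtain ⟨S, hS, hSQ⟩ := block_lemma hP hQ hP0 x hmax hpos hPQ
    have hrec : ∀ r : Fin N → Bool, ∃ a : (Fin N → Bool) → ℝ, DT (k ^ 2 * l * l) a ∧
        (∀ y, a y = 0 ∨ a y = 1) ∧
        (∀ y, a y = 0 → P (ovr S r y) = 0) ∧ (∀ y, a y = 1 → Q (ovr S r y) = 0) := by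
      intro r
      have hQ' : (fun y => Q (ovr S r y)) ∈ Deg N l := by
        have h1 := Deg_ovr_sub hQ S r x
        have h2 : (fun y => Q (ovr S r y) - Q (ovr S x y)) = fun y => Q (ovr S r y) := by
          funext y
          rw [hSQ (ovr S x y) (fun i hi => by simp [ovr, hi]), sub_zero]
        rwa [h2] at h1
      exact ih (P := fun y => P (ovr S r y)) (Q := fun y => Q (ovr S r y)) (Deg_ovr hP S r) hQ'
        (fun y => hP0 _) (fun y => hPQ _)
    choose A hA1 hA2 hA3 hA4 using hrec
    set z : Fin N → Bool := fun _ => false with hz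
    refine ⟨fun y => A (ovr S y z) y, ?_, ?_, ?_, ?_⟩
    · have h1 : DT (k ^ 2 * l * l + S.card) (fun y => A (ovr S y z) y) := by
        apply DT_query
        intro r
        have h2 : (fun y => A (ovr S (ovr S r y) z) (ovr S r y)) =
            fun y => A (ovr S r z) (ovr S r y) := by
          funext y
          have : ovr S (ovr S r y) z = ovr S r z := by
            funext i; unfold ovr; split_ifs <;> rfl
          rw [this]
        rw [h2]
        exact DT_ovr (hA1 _) S r
      refine DT_mono ?_ h1
      calc k ^ 2 * l * l + S.card ≤ k ^ 2 * l * l + k ^ 2 * (l + 1) := by omega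
        _ ≤ k ^ 2 * (l + 1) * (l + 1) := by nlinarith [Nat.zero_le (k ^ 2 * l)]
    · intro y; exact hA2 _ _
    · intro y hy
      have h1 := hA3 _ y hy
      have h2 : ovr S (ovr S y z) y = y := by
        funext i; unfold ovr; split_ifs <;> rfl
      rwa [h2] at h1
    · intro y hy
      have h1 := hA4 _ y hy
      have h2 : ovr S (ovr S y z) y = y := by
        funext i; unfold ovr; split_ifs <;> rfl
      rwa [h2] at h1

lemma upd_cases (i : Fin N) (x : Fin N → Bool) (h : (Fin N → Bool) → ℝ) :
    (h (upd i true x) = h x ∧ h (upd i false x) = h (flip {i} x)) ∨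
    (h (upd i false x) = h x ∧ h (upd i true x) = h (flip {i} x)) := by
  cases hx : x i
  · right
    constructor
    · congr 1; funext j; unfold upd; split_ifs with hj
      · subst hj; exact hx.symm
      · rfl
    · congr 1; funext j; unfold upd flip
      by_cases hj : j = i
      · subst hj; simp [hx]
      · simp [hj]
  · left
    constructor
    · congr 1; funext j; unfold upd; split_ifs with hj
      · subst hj; exact hx.symm
      · rfl
    · congr 1; funext j; unfold upd flip
      by_cases hj : j = i
      · subst hj; simp [hx]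
      · simp [hj]

lemma E_split (i : Fin N) (h : (Fin N → Bool) → ℝ) :
    E h = (E (fun x => h (upd i true x)) + E (fun x => h (upd i false x))) / 2 := by
  have h1 : E (fun x => h (upd i true x) + h (upd i false x)) = E (fun x => h x + h (flip {i} x)) := by
    congr 1
    funext x
    rcases upd_cases i x h with ⟨h1, h2⟩ | ⟨h1, h2⟩ <;> rw [h1, h2]
    ring
  rw [E_add, E_add, E_flip] at h1
  linarith

lemma E_upd_abs (i : Fin N) (h : (Fin N → Bool) → ℝ) :
    E (fun x => |h (upd i true x) - h x|) + E (fun x => |h (upd i false x) - h x|) =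
      E (fun x => |h (flip {i} x) - h x|) := by
  rw [← E_add]
  congr 1
  funext x
  rcases upd_cases i x h with ⟨h1, h2⟩ | ⟨h1, h2⟩ <;> rw [h1, h2] <;> simp

/-- The covariance bound for shallow decision trees. -/
lemma osss {h : (Fin N → Bool) → ℝ} {η : ℝ} (hη0 : 0 ≤ η)
    (hη : ∀ i, E (fun x => |h (flip {i} x) - h x|) ≤ 2 * η) (D : ℕ) :
    ∀ {a : (Fin N → Bool) → ℝ}, DT D a → (∀ x, 0 ≤ a x ∧ a x ≤ 1) →
      |E (fun x => a x * h x) - E a * E h| ≤ D * η := by
  have hconst : ∀ (D : ℕ) (a : (Fin N → Bool) → ℝ),
      (∃ c : ℝ, 0 ≤ c ∧ c ≤ 1 ∧ ∀ x, a x = c) →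
      |E (fun x => a x * h x) - E a * E h| ≤ D * η := by
    intro D a ⟨c, _, _, hc⟩
    have h1 : a = fun _ => c := funext hc
    subst h1
    rw [E_smul, E_const, sub_self, abs_zero]
    positivity
  induction D with
  | zero =>
    intro a ha _
    exact hconst 0 a ha
  | succ D ih =>
    intro a ha h01
    rcases ha with ha | ⟨i, ha⟩
    · exact hconst (D + 1) a ha
    · have hb : ∀ b : Bool, |E (fun x => a (upd i b x) * h (upd i b x)) -
          E (fun x => a (upd i b x)) * E h| ≤ E (fun x => |h (upd i b x) - h x|) + D * η := by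
        intro b
        have h1 := ih (ha b) (fun x => h01 _)
        have h2 : E (fun x => a (upd i b x) * h (upd i b x)) =
            E (fun x => a (upd i b x) * (h (upd i b x) - h x)) +
            E (fun x => a (upd i b x) * h x) := by
          rw [← E_add]; congr 1; funext x; ring
        have h3 : |E (fun x => a (upd i b x) * (h (upd i b x) - h x))| ≤
            E (fun x => |h (upd i b x) - h x|) := by
          refine (abs_E_le _).trans (E_mono fun x => ?_)
          rw [abs_mul, abs_of_nonneg (h01 _).1]
          exact mul_le_of_le_one_left (abs_nonneg _) (h01 _).2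
        rw [h2]
        calc _ = |E (fun x => a (upd i b x) * (h (upd i b x) - h x)) +
              (E (fun x => a (upd i b x) * h x) - E (fun x => a (upd i b x)) * E h)| := by
              congr 1; ring
          _ ≤ _ := (abs_add_le _ _).trans (add_le_add h3 h1)
      have h4 := hb true
      have h5 := hb false
      have h6 := E_upd_abs i h
      have h7 := hη i
      rw [E_split i (fun x => a x * h x), E_split i a]
      rw [abs_le] at h4 h5 ⊢
      push_cast
      constructor <;> nlinarith [h4.1, h4.2, h5.1, h5.2]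

end Pool.Agent.H285R2.PolyCompat
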