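import Mathlib

/-!
A closed connected set that is, near each of its points, either convex or closed under moving
towards the point `p` of the set, is starshaped with respect to `p`.
-/

set_option autoImplicit false

namespace Pool.Agent.H285R2.Star

open Metric Set

variable {V : Type*} [NormedAddCommGroup V] [InnerProductSpace ℝ V]

/-- The set `E` is, inside the ball of radius `r` around `x`, closed under moving towards `p`. -/
def Toward (E : Set V) (p x : V) (r : ℝ) : Prop :=
  ∀ g ∈ E, dist g x < r → ∀ t ∈ Icc (0:ℝ) 1, dist (g + t • (p - g)) x < r → g + t • (p - g) ∈ E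

/-- `y` sees `z` in `E`. -/
def Sees (E : Set V) (y z : V) : Prop := ∀ t ∈ Icc (0:ℝ) 1, y + t • (z - y) ∈ E

lemma Sees.symm {E : Set V} {y z : V} (h : Sees E y z) : Sees E z y := by
  intro t ht
  have h1 := h (1 - t) ⟨by linarith [ht.2], by linarith [ht.1]⟩
  have h2 : y + (1 - t) • (z - y) = z + t • (y - z) := by
    rw [sub_smul, one_smul, smul_sub, smul_sub]; abel
  rwa [h2] at h1

lemma Sees.left {E : Set V} {y z : V} (h : Sees E y z) : y ∈ E := by
  have := h 0 ⟨le_rfl, zero_le_one⟩
  simpa using this

lemma Sees.right {E : Set V} {y z : V} (h : Sees E y z) : z ∈ E := by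
  have := h 1 ⟨zero_le_one, le_rfl⟩
  simpa using this

/-- If `F` consists of points that see all of `E` near `x`, then `E` is near `x` closed under
moving towards every point of the convex hull of `F`. -/
lemma toward_of_hull [FiniteDimensional ℝ V] {E : Set V} (hE : IsClosed E) {x : V} {r : ℝ}
    {F : Set V} (hF : ∀ y ∈ F, ∀ z ∈ E, dist z x < r → Sees E y z) {p : V}
    (hp : p ∈ convexHull ℝ F) : Toward E p x r := by
  have : ProperSpace V := FiniteDimensional.proper ℝ V
  intro g hg hgx t ht hqx
  by_contra hq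
  set q := g + t • (p - g) with hqdef
  -- the path from q back to g
  set c : ℝ → V := fun s => q + s • (g - q) with hc
  have hcc : Continuous c := by rw [hc]; fun_prop
  have hEne : E.Nonempty := ⟨g, hg⟩
  have hc0 : c 0 = q := by simp [hc]
  have hc1 : c 1 = g := by simp [hc]
  have hdq : 0 < infDist q E := by
    rw [← hE.notMem_iff_infDist_pos hEne]; exact hq
  obtain ⟨ε, hε0, hε1, hε2, hε3⟩ : ∃ ε : ℝ, 0 < ε ∧ ε < infDist q E ∧ dist g x + ε < r ∧
      dist q x + ε < r := by
    refine ⟨min (infDist q E) (min (r - dist g x) (r - dist q x)) / 2, ?_, ?_, ?_, ?_⟩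
    · have : 0 < min (infDist q E) (min (r - dist g x) (r - dist q x)) := by
        apply lt_min hdq (lt_min (by linarith) (by linarith))
      linarith
    · have h1 := min_le_left (infDist q E) (min (r - dist g x) (r - dist q x))
      linarith
    · have h1 := (min_le_right (infDist q E) (min (r - dist g x) (r - dist q x))).trans
        (min_le_left _ _)
      have h2 : 0 < r - dist g x := by linarith
      linarith
    · have h1 := (min_le_right (infDist q E) (min (r - dist g x) (r - dist q x))).trans
        (min_le_right _ _)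
      have h2 : 0 < r - dist q x := by linarith
      linarith
  set f : ℝ → ℝ := fun s => infDist (c s) E with hf
  have hfc : Continuous f := (continuous_infDist_pt E).comp hcc
  set K : Set ℝ := Icc 0 1 ∩ {s | f s ≤ ε} with hK
  have hKc : IsCompact K := isCompact_Icc.inter_right (isClosed_le hfc continuous_const)
  have hKne : K.Nonempty := ⟨1, ⟨zero_le_one, le_rfl⟩, by
    simp only [mem_setOf_eq, hf, hc1]
    rw [infDist_zero_of_mem hg]; exact hε0.le⟩
  obtain ⟨τ, hτK, hτmin⟩ := hKc.exists_isLeast hKne
  have hτ0 : 0 < τ := by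
    rcases hτK.1.1.lt_or_eq with h | h
    · exact h
    · exfalso
      have h1 := hτK.2
      rw [← h] at h1
      simp only [mem_setOf_eq, hf, hc0] at h1
      linarith
  have hbefore : ∀ s, 0 ≤ s → s < τ → ε < f s := by
    intro s hs0 hs
    by_contra h
    push Not at h
    have h1 : s ∈ K := ⟨⟨hs0, hs.le.trans hτK.1.2⟩, h⟩
    have := hτmin h1
    linarith
  obtain ⟨w, hwE, hw⟩ := hE.exists_infDist_eq_dist hEne (c τ)
  have hwε : dist (c τ) w ≤ ε := by
    rw [← hw]; exact hτK.2
  -- inner product conditions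
  have hA : 0 ≤ inner ℝ (c τ - w) (q - g) := by
    have h1 : ∀ s : ℝ, 0 < s → s ≤ τ → -(s * ‖q - g‖ ^ 2) ≤ 2 * inner ℝ (c τ - w) (q - g) := by
      intro s hs0 hs
      have h2 : ε < f (τ - s) := hbefore _ (by linarith) (by linarith)
      have h3 : f (τ - s) ≤ dist (c (τ - s)) w := infDist_le_dist_of_mem hwE
      have h4 : c (τ - s) - w = (c τ - w) + s • (q - g) := by
        simp only [hc, sub_smul, smul_sub]; abel
      rw [dist_eq_norm, h4] at h3
      rw [dist_eq_norm] at hwε
      have h5 : ‖c τ - w‖ ^ 2 ≤ ‖(c τ - w) + s • (q - g)‖ ^ 2 := by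
        have : ‖c τ - w‖ ≤ ‖(c τ - w) + s • (q - g)‖ := by linarith
        gcongr
      rw [norm_add_sq_real, inner_smul_right, norm_smul, mul_pow, Real.norm_eq_abs, sq_abs] at h5
      have h6 : 0 ≤ s * (2 * inner ℝ (c τ - w) (q - g) + s * ‖q - g‖ ^ 2) := by nlinarith
      have h7 := nonneg_of_mul_nonneg_right h6 hs0
      linarith
    by_contra hneg
    push Not at hneg
    set a := inner ℝ (c τ - w) (q - g) with ha
    have hpos : 0 < ‖q - g‖ ^ 2 + 1 := by positivity
    have h2 := h1 (min τ (-a / (‖q - g‖ ^ 2 + 1))) (lt_min hτ0 (div_pos (by linarith) hpos))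
      (min_le_left _ _)
    have h3 : min τ (-a / (‖q - g‖ ^ 2 + 1)) * ‖q - g‖ ^ 2 ≤ -a := by
      calc _ ≤ (-a / (‖q - g‖ ^ 2 + 1)) * (‖q - g‖ ^ 2 + 1) := by
            apply mul_le_mul (min_le_right _ _) (by linarith) (by positivity)
            exact div_nonneg (by linarith) hpos.le
        _ = -a := by field_simp
    linarith
  have hcball : dist (c τ) x + ε < r := by
    have h1 : c τ ∈ ball x (r - ε) := by
      have h2 : Convex ℝ (ball x (r - ε)) := convex_ball x _
      have h3 : q ∈ ball x (r - ε) := by rw [mem_ball]; linarith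
      have h4 : g ∈ ball x (r - ε) := by rw [mem_ball]; linarith
      exact h2.add_smul_sub_mem h3 h4 hτK.1
    rw [mem_ball] at h1; linarith
  have hwx : dist w x < r := by
    calc dist w x ≤ dist w (c τ) + dist (c τ) x := dist_triangle _ _ _
      _ < r := by rw [dist_comm w]; linarith
  have hB : inner ℝ (p - w) (c τ - w) ≤ 0 := by
    have hconv : Convex ℝ {y : V | inner ℝ (y - w) (c τ - w) ≤ 0} := by
      intro y hy z hz a b ha hb hab
      simp only [mem_setOf_eq] at hy hz ⊢
      have h1 : a • y + b • z - w = a • (y - w) + b • (z - w) := by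
        have : w = (a + b) • w := by rw [hab, one_smul]
        nth_rewrite 1 [this]
        simp only [add_smul, smul_sub]; abel
      rw [h1, inner_add_left, inner_smul_left, inner_smul_left]
      simp only [conj_trivial]
      nlinarith
    have hsub : F ⊆ {y : V | inner ℝ (y - w) (c τ - w) ≤ 0} := by
      intro y hy
      simp only [mem_setOf_eq]
      have hsee := (hF y hy w hwE hwx).symm
      have h1 : ∀ s : ℝ, 0 < s → s ≤ 1 →
          2 * inner ℝ (y - w) (c τ - w) ≤ s * ‖y - w‖ ^ 2 := by
        intro s hs0 hs1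
        have h2 := hsee s ⟨hs0.le, hs1⟩
        have h3 : dist (c τ) w ≤ dist (c τ) (w + s • (y - w)) := by
          rw [← hw]; exact infDist_le_dist_of_mem h2
        rw [dist_eq_norm, dist_eq_norm] at h3
        have h4 : c τ - (w + s • (y - w)) = (c τ - w) - s • (y - w) := by abel
        rw [h4] at h3
        have h5 : ‖c τ - w‖ ^ 2 ≤ ‖(c τ - w) - s • (y - w)‖ ^ 2 := by gcongr
        rw [norm_sub_sq_real (c τ - w) (s • (y - w)), inner_smul_right, norm_smul, mul_pow,
          Real.norm_eq_abs, sq_abs, real_inner_comm] at h5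
        have h6 : 0 ≤ s * (s * ‖y - w‖ ^ 2 - 2 * inner ℝ (y - w) (c τ - w)) := by nlinarith
        have h7 := nonneg_of_mul_nonneg_right h6 hs0
        linarith
      by_contra hneg
      push Not at hneg
      set a := inner ℝ (y - w) (c τ - w) with ha
      have hpos : 0 < ‖y - w‖ ^ 2 + 1 := by positivity
      have h2 := h1 (min 1 (a / (‖y - w‖ ^ 2 + 1))) (lt_min one_pos (div_pos hneg hpos))
        (min_le_left _ _)
      have h3 : min 1 (a / (‖y - w‖ ^ 2 + 1)) * ‖y - w‖ ^ 2 ≤ a := by
        calc _ ≤ (a / (‖y - w‖ ^ 2 + 1)) * (‖y - w‖ ^ 2 + 1) := by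
              apply mul_le_mul (min_le_right _ _) (by linarith) (by positivity)
              exact div_nonneg hneg.le hpos.le
          _ = a := by field_simp
      linarith
    exact convexHull_min hsub hconv hp
  -- c τ is not in E
  have hcw : 0 < ‖c τ - w‖ := by
    rw [norm_pos_iff]
    intro h0
    have hcE : c τ ∈ E := by
      have : c τ = w := sub_eq_zero.mp h0
      rw [this]; exact hwE
    -- nearby earlier points have small distance
    have hqg : 0 < ‖q - g‖ + 1 := by positivity
    have hs : 0 < min τ (ε / (‖q - g‖ + 1)) := lt_min hτ0 (div_pos hε0 hqg)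
    have h2 := hbefore (τ - min τ (ε / (‖q - g‖ + 1)))
      (by linarith [min_le_left τ (ε / (‖q - g‖ + 1))]) (by linarith)
    have h3 : f (τ - min τ (ε / (‖q - g‖ + 1))) ≤
        dist (c (τ - min τ (ε / (‖q - g‖ + 1)))) (c τ) := infDist_le_dist_of_mem hcE
    have h4 : c (τ - min τ (ε / (‖q - g‖ + 1))) - c τ =
        min τ (ε / (‖q - g‖ + 1)) • (q - g) := by
      simp only [hc, sub_smul, smul_sub]; abel
    rw [dist_eq_norm, h4, norm_smul, Real.norm_eq_abs, abs_of_pos hs] at h3
    have h5 : min τ (ε / (‖q - g‖ + 1)) * ‖q - g‖ ≤ ε := by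
      calc _ ≤ (ε / (‖q - g‖ + 1)) * (‖q - g‖ + 1) := by
            apply mul_le_mul (min_le_right _ _) (by linarith) (norm_nonneg _)
            exact div_nonneg hε0.le hqg.le
        _ = ε := by field_simp
    linarith
  -- conclude
  have htpos : 0 < t := by
    rcases ht.1.lt_or_eq with h | h
    · exact h
    · exfalso; apply hq; rw [hqdef, ← h]; simpa using hg
  have hqg : q - g = t • (p - g) := by rw [hqdef]; abel
  have hpc : p - c τ = (1 - (1 - τ) * t) • (p - g) := by
    have h1 : c τ = g + (1 - τ) • (q - g) := by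
      simp only [hc, sub_smul, smul_sub, one_smul]; abel
    rw [h1, hqg, smul_smul, sub_smul, one_smul]; abel
  have h1 : inner ℝ (p - w) (c τ - w) =
      (1 - (1 - τ) * t) * inner ℝ (p - g) (c τ - w) + ‖c τ - w‖ ^ 2 := by
    have h2 : p - w = (p - c τ) + (c τ - w) := by abel
    rw [h2, inner_add_left, real_inner_self_eq_norm_sq, hpc, inner_smul_left]
    simp
  have h2 : 0 ≤ inner ℝ (p - g) (c τ - w) := by
    rw [hqg, inner_smul_right, real_inner_comm] at hA
    exact nonneg_of_mul_nonneg_right hA htpos
  have h3 : 0 ≤ 1 - (1 - τ) * t := by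
    have : (1 - τ) * t ≤ 1 := by
      calc (1 - τ) * t ≤ 1 * 1 := by
            apply mul_le_mul (by linarith) ht.2 ht.1 (by norm_num)
        _ = 1 := by norm_num
    linarith
  have h4 : 0 ≤ (1 - (1 - τ) * t) * inner ℝ (p - g) (c τ - w) := mul_nonneg h3 h2
  have h5 : 0 < ‖c τ - w‖ ^ 2 := by positivity
  linarith

end Pool.Agent.H285R2.Star
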