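import Mathlib
import Pool.Agent.H285R2.Star

set_option autoImplicit false

namespace Pool.Agent.H285R2.Star

open Metric Set

variable {V : Type*} [NormedAddCommGroup V] [InnerProductSpace ℝ V]

/-- Each point of `E` has a ball in which `E` is convex or closed under moving towards `p`. -/
def Loc (E : Set V) (p : V) : Prop :=
  ∀ x ∈ E, (∃ r > 0, Convex ℝ (ball x r ∩ E)) ∨ (∃ r > 0, Toward E p x r)

lemma isClosed_sees {E : Set V} (hE : IsClosed E) (p : V) : IsClosed {z | Sees E p z} := by
  have : {z | Sees E p z} = ⋂ t ∈ Icc (0:ℝ) 1, (fun z => p + t • (z - p)) ⁻¹' E := by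
    ext z; simp [Sees]
  rw [this]
  exact isClosed_biInter fun t _ => hE.preimage (by fun_prop)

lemma conv_seg {M : Set V} (hM : Convex ℝ M) {a b : V} (ha : a ∈ M) (hb : b ∈ M) {t : ℝ}
    (ht : t ∈ Icc (0:ℝ) 1) : a + t • (b - a) ∈ M :=
  hM.add_smul_sub_mem ha hb ht

lemma dist_add_smul (p q : V) (t : ℝ) (g h : V) :
    dist (p + t • (g - p)) (q + t • (h - q)) ≤ |1 - t| * dist p q + |t| * dist g h := by
  rw [dist_eq_norm, dist_eq_norm, dist_eq_norm]
  have : p + t • (g - p) - (q + t • (h - q)) = (1 - t) • (p - q) + t • (g - h) := by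
    simp only [smul_sub, sub_smul, one_smul]; abel
  rw [this]
  refine (norm_add_le _ _).trans ?_
  rw [norm_smul, norm_smul, Real.norm_eq_abs, Real.norm_eq_abs]

/-- The step at the point `a`: if all points of `E` near the points of `[p,a)` are seen from `p`,
then also the points of `E` near `a`. -/
lemma star_step {E : Set V} (hE : IsClosed E) {p : V} (hloc : Loc E p) {a : V} (ha : Sees E p a)
    (hW : ∀ β : ℝ, 0 ≤ β → β < 1 → ∃ ρ > 0, ∀ g ∈ E, dist g (p + β • (a - p)) < ρ → Sees E p g) :
    ∃ ρ > 0, ∀ g ∈ E, dist g a < ρ → Sees E p g := by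
  have haE : a ∈ E := ha.right
  rcases hloc a haE with ⟨r, hr, hM⟩ | ⟨r, hr, hT⟩
  · -- the convex case
    set δ : ℝ := min (1/4) (r / (4 * (‖a - p‖ + 1))) with hδ
    have hpos : 0 < 4 * (‖a - p‖ + 1) := by positivity
    have hδ0 : 0 < δ := lt_min (by norm_num) (div_pos hr hpos)
    have hδ1 : δ ≤ 1/4 := min_le_left _ _
    have hδ2 : δ * ‖a - p‖ < r / 4 := by
      calc δ * ‖a - p‖ < δ * (‖a - p‖ + 1) := by
            apply mul_lt_mul_of_pos_left (by linarith) hδ0
        _ ≤ (r / (4 * (‖a - p‖ + 1))) * (‖a - p‖ + 1) := by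
            apply mul_le_mul_of_nonneg_right (min_le_right _ _) (by positivity)
        _ = r / 4 := by field_simp
    obtain ⟨ρ, hρ, hρE⟩ := hW (1 - δ) (by linarith) (by linarith)
    refine ⟨min ρ (r / 2), lt_min hρ (by linarith), ?_⟩
    intro g hg hga
    have hgρ : dist g a < ρ := lt_of_lt_of_le hga (min_le_left _ _)
    have hgr : dist g a < r / 2 := lt_of_lt_of_le hga (min_le_right _ _)
    have hw : ‖g - a‖ < ρ := by rwa [dist_eq_norm] at hgρ
    have hw2 : ‖g - a‖ < r / 2 := by rwa [dist_eq_norm] at hgr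
    set b : V := p + (1 - δ) • (a - p) with hb
    have hbE : b ∈ E := ha (1 - δ) ⟨by linarith, by linarith⟩
    have hba : b - a = -(δ • (a - p)) := by
      rw [hb]; simp only [sub_smul, one_smul]; abel
    have hbdist : ‖b - a‖ < r / 4 := by
      rw [hba, norm_neg, norm_smul, Real.norm_eq_abs, abs_of_pos hδ0]; exact hδ2
    set K : Set ℝ := Icc 0 1 ∩ {l | b + l • (g - a) ∈ E} with hK
    have hKc : IsCompact K :=
      isCompact_Icc.inter_right (hE.preimage (by fun_prop : Continuous fun l : ℝ => b + l • (g - a)))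
    have hKne : K.Nonempty := ⟨0, ⟨le_rfl, zero_le_one⟩, by simpa using hbE⟩
    obtain ⟨l, hlK, hlmax⟩ := hKc.exists_isGreatest hKne
    set v : V := b + l • (g - a) with hv
    have hvE : v ∈ E := hlK.2
    have hl0 : 0 ≤ l := hlK.1.1
    have hl1 : l ≤ 1 := hlK.1.2
    have hlw : ‖l • (g - a)‖ ≤ ‖g - a‖ := by
      rw [norm_smul, Real.norm_eq_abs, abs_of_nonneg hl0]
      exact mul_le_of_le_one_left (norm_nonneg _) hl1
    have hvb : dist v b < ρ := by
      rw [dist_eq_norm, hv, add_sub_cancel_left]; linarith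
    have hvsee := hρE v hvE hvb
    have hβ : 0 < 1 - δ := by linarith
    set κ : ℝ := (1 - 2 * δ) / (1 - δ) with hκ
    have hκ0 : 0 ≤ κ := div_nonneg (by linarith) hβ.le
    have hκ1 : κ ≤ 1 := by rw [hκ, div_le_one hβ]; linarith
    have huE := hvsee κ ⟨hκ0, hκ1⟩
    set u : V := p + κ • (v - p) with hu
    have hua : u - a = -((2 * δ) • (a - p)) + (κ * l) • (g - a) := by
      have h1 : v - p = (1 - δ) • (a - p) + l • (g - a) := by rw [hv, hb]; abel
      rw [hu, h1, smul_add, smul_smul, smul_smul]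
      have h2 : κ * (1 - δ) = 1 - 2 * δ := by rw [hκ]; field_simp
      rw [h2]; simp only [sub_smul, one_smul]; abel
    have huball : u ∈ ball a r ∩ E := by
      refine ⟨?_, huE⟩
      rw [mem_ball, dist_eq_norm, hua]
      calc _ ≤ ‖-((2 * δ) • (a - p))‖ + ‖(κ * l) • (g - a)‖ := norm_add_le _ _
        _ ≤ 2 * (δ * ‖a - p‖) + ‖g - a‖ := by
          rw [norm_neg, norm_smul, norm_smul, Real.norm_eq_abs, Real.norm_eq_abs,
            abs_of_pos (by linarith : (0:ℝ) < 2 * δ), abs_of_nonneg (mul_nonneg hκ0 hl0)]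
          have : κ * l * ‖g - a‖ ≤ ‖g - a‖ := by
            apply mul_le_of_le_one_left (norm_nonneg _)
            calc κ * l ≤ 1 * 1 := mul_le_mul hκ1 hl1 hl0 zero_le_one
              _ = 1 := one_mul 1
          linarith
        _ < r := by linarith
    have hgball : g ∈ ball a r ∩ E := ⟨by rw [mem_ball]; linarith, hg⟩
    have hmid := conv_seg hM huball hgball (t := 1/2) ⟨by norm_num, by norm_num⟩
    have hmid2 : u + (1/2 : ℝ) • (g - u) = b + ((κ * l + 1) / 2) • (g - a) := by
      have h1 : u = a + (-((2 * δ) • (a - p)) + (κ * l) • (g - a)) := by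
        rw [← hua]; abel
      have h2 : b = a - δ • (a - p) := by
        have := hba
        rw [sub_eq_iff_eq_add] at this
        rw [this]; abel
      have h3 : g = a + (g - a) := by abel
      set w := g - a with hwdef
      rw [h1, h2, h3]
      have h4 : a + w - (a + (-((2 * δ) • (a - p)) + (κ * l) • w)) =
          (2 * δ) • (a - p) + (1 - κ * l) • w := by
        simp only [sub_smul, one_smul]; abel
      rw [h4, smul_add, smul_smul, smul_smul]
      have h5 : (1 / 2 : ℝ) * (2 * δ) = δ := by ring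
      rw [h5]
      have h6 : a + (-((2 * δ) • (a - p)) + (κ * l) • w) + (δ • (a - p) + (1 / 2 * (1 - κ * l)) • w)
          = a + (-(2 * δ) + δ) • (a - p) + (κ * l + 1 / 2 * (1 - κ * l)) • w := by
        simp only [add_smul, neg_smul]; abel
      rw [h6]
      have h7 : -(2 * δ) + δ = -δ := by ring
      have h8 : κ * l + 1 / 2 * (1 - κ * l) = (κ * l + 1) / 2 := by ring
      rw [h7, h8, neg_smul]; abel
    rw [hmid2] at hmid
    have hl' : (κ * l + 1) / 2 ∈ K := by
      have hκl0 : 0 ≤ κ * l := mul_nonneg hκ0 hl0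
      have hκl1 : κ * l ≤ 1 := by
        calc κ * l ≤ 1 * 1 := mul_le_mul hκ1 hl1 hl0 zero_le_one
          _ = 1 := one_mul 1
      exact ⟨⟨by linarith, by linarith⟩, hmid.2⟩
    have hl2 := hlmax hl'
    have hlβ : 1 - δ ≤ l := by
      have h1 : κ * (1 - δ) = 1 - 2 * δ := by rw [hκ]; field_simp
      have h2 : 1 ≤ (2 - κ) * l := by linarith
      have h3 : (2 - κ) * (1 - δ) = 1 := by rw [sub_mul, h1]; ring
      have h4 : 0 < 2 - κ := by linarith
      by_contra hlt
      push Not at hlt
      have : (2 - κ) * l < (2 - κ) * (1 - δ) := mul_lt_mul_of_pos_left hlt h4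
      linarith
    have hlpos : 0 < l := by linarith
    have hbball : b ∈ ball a r ∩ E := ⟨by rw [mem_ball, dist_eq_norm]; linarith, hbE⟩
    have hvball : v ∈ ball a r ∩ E := by
      refine ⟨?_, hvE⟩
      rw [mem_ball, dist_eq_norm]
      have : v - a = (b - a) + l • (g - a) := by rw [hv]; abel
      rw [this]
      exact lt_of_le_of_lt (norm_add_le _ _) (by linarith)
    have hg'0 := conv_seg hM hbball hvball (t := (1 - δ) / l)
      ⟨div_nonneg hβ.le hl0, by rw [div_le_one hlpos]; exact hlβ⟩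
    have hg'1 : b + ((1 - δ) / l) • (v - b) = p + (1 - δ) • (g - p) := by
      have h1 : v - b = l • (g - a) := by rw [hv]; abel
      rw [h1, smul_smul, div_mul_cancel₀ _ hlpos.ne', hb]
      simp only [smul_sub]; abel
    rw [hg'1] at hg'0
    set g' : V := p + (1 - δ) • (g - p) with hg'
    have hg'b : dist g' b < ρ := by
      rw [dist_eq_norm]
      have : g' - b = (1 - δ) • (g - a) := by rw [hg', hb]; simp only [smul_sub]; abel
      rw [this, norm_smul, Real.norm_eq_abs, abs_of_pos hβ]
      calc (1 - δ) * ‖g - a‖ ≤ 1 * ‖g - a‖ := by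
            apply mul_le_mul_of_nonneg_right (by linarith) (norm_nonneg _)
        _ < ρ := by linarith
    have hsee' := hρE g' hg'0.2 hg'b
    intro t ht
    rcases le_total t (1 - δ) with h | h
    · have h1 := hsee' (t / (1 - δ)) ⟨div_nonneg ht.1 hβ.le, by rw [div_le_one hβ]; exact h⟩
      have h2 : p + (t / (1 - δ)) • (g' - p) = p + t • (g - p) := by
        have : g' - p = (1 - δ) • (g - p) := by rw [hg']; abel
        rw [this, smul_smul, div_mul_cancel₀ _ hβ.ne']
      rwa [h2] at h1
    · have h1 := conv_seg hM hg'0 hgball (t := (t - (1 - δ)) / δ)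
        ⟨div_nonneg (by linarith) hδ0.le, by rw [div_le_one hδ0]; linarith [ht.2]⟩
      have h2 : g' + ((t - (1 - δ)) / δ) • (g - g') = p + t • (g - p) := by
        have h3 : g - g' = δ • (g - p) := by
          rw [hg']; simp only [sub_smul, one_smul]; abel
        rw [h3, smul_smul, div_mul_cancel₀ _ hδ0.ne', hg']
        have h4 : t • (g - p) = (1 - δ) • (g - p) + (t - (1 - δ)) • (g - p) := by
          rw [← add_smul]; congr 1; ring
        rw [h4]; abel
      rw [h2] at h1
      exact h1.2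
  · -- the case where `E` is closed under moving towards `p`
    set δ : ℝ := min (1/2) (r / (2 * (‖a - p‖ + 1))) with hδ
    have hpos : 0 < 2 * (‖a - p‖ + 1) := by positivity
    have hδ0 : 0 < δ := lt_min (by norm_num) (div_pos hr hpos)
    have hδ1 : δ ≤ 1/2 := min_le_left _ _
    have hδ2 : δ * ‖a - p‖ < r / 2 := by
      calc δ * ‖a - p‖ < δ * (‖a - p‖ + 1) := by
            apply mul_lt_mul_of_pos_left (by linarith) hδ0
        _ ≤ (r / (2 * (‖a - p‖ + 1))) * (‖a - p‖ + 1) := by
            apply mul_le_mul_of_nonneg_right (min_le_right _ _) (by positivity)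
        _ = r / 2 := by field_simp
    obtain ⟨ρ, hρ, hρE⟩ := hW (1 - δ) (by linarith) (by linarith)
    have hβ : 0 < 1 - δ := by linarith
    refine ⟨min ρ (r / 2), lt_min hρ (by linarith), ?_⟩
    intro g hg hga
    have hgρ : dist g a < ρ := lt_of_lt_of_le hga (min_le_left _ _)
    have hgr : dist g a < r / 2 := lt_of_lt_of_le hga (min_le_right _ _)
    have hball : ∀ t : ℝ, 1 - δ ≤ t → t ≤ 1 → p + t • (g - p) ∈ E := by
      intro t ht0 ht1
      have h1 : g + (1 - t) • (p - g) = p + t • (g - p) := by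
        simp only [sub_smul, one_smul, smul_sub]; abel
      rw [← h1]
      apply hT g hg (by linarith) (1 - t) ⟨by linarith, by linarith⟩
      rw [h1]
      have h2 : p + t • (g - p) - a = t • (g - a) - (1 - t) • (a - p) := by
        simp only [sub_smul, one_smul, smul_sub]; abel
      rw [dist_eq_norm, h2]
      calc _ ≤ ‖t • (g - a)‖ + ‖(1 - t) • (a - p)‖ := norm_sub_le _ _
        _ ≤ dist g a + δ * ‖a - p‖ := by
          rw [norm_smul, norm_smul, Real.norm_eq_abs, Real.norm_eq_abs,
            abs_of_nonneg (by linarith : 0 ≤ t), abs_of_nonneg (by linarith : 0 ≤ 1 - t),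
            dist_eq_norm]
          apply add_le_add
          · exact mul_le_of_le_one_left (norm_nonneg _) ht1
          · apply mul_le_mul_of_nonneg_right (by linarith) (norm_nonneg _)
        _ < r := by linarith
    have hg'E := hball (1 - δ) le_rfl (by linarith)
    have hg'b : dist (p + (1 - δ) • (g - p)) (p + (1 - δ) • (a - p)) < ρ := by
      refine lt_of_le_of_lt (dist_add_smul _ _ _ _ _) ?_
      rw [dist_self, mul_zero, zero_add, abs_of_pos hβ]
      calc (1 - δ) * dist g a ≤ 1 * dist g a := by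
            apply mul_le_mul_of_nonneg_right (by linarith) dist_nonneg
        _ < ρ := by linarith
    have hsee' := hρE _ hg'E hg'b
    intro t ht
    rcases le_total t (1 - δ) with h | h
    · have h1 := hsee' (t / (1 - δ)) ⟨div_nonneg ht.1 hβ.le, by rw [div_le_one hβ]; exact h⟩
      have h2 : p + (t / (1 - δ)) • (p + (1 - δ) • (g - p) - p) = p + t • (g - p) := by
        rw [add_sub_cancel_left, smul_smul, div_mul_cancel₀ _ hβ.ne']
      rwa [h2] at h1
    · exact hball t h ht.2

/-- The points of `E` near a point seen from `p` are seen from `p`. -/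
lemma star_open {E : Set V} (hE : IsClosed E) {p : V} (hp : p ∈ E) (hloc : Loc E p) {z : V}
    (hz : Sees E p z) : ∃ ρ > 0, ∀ g ∈ E, dist g z < ρ → Sees E p g := by
  set W : ℝ → Prop := fun t => ∃ ρ > 0, ∀ g ∈ E, dist g (p + t • (z - p)) < ρ → Sees E p g with hWdef
  have hWopen : IsOpen {t | W t} := by
    rw [Metric.isOpen_iff]
    rintro t ⟨ρ, hρ, hρE⟩
    refine ⟨ρ / (2 * (‖z - p‖ + 1)), by positivity, ?_⟩
    intro t' ht'
    refine ⟨ρ / 2, by linarith, ?_⟩
    intro g hg hgt
    apply hρE g hg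
    have h1 : dist (p + t' • (z - p)) (p + t • (z - p)) ≤ ρ / 2 := by
      rw [dist_eq_norm]
      have : p + t' • (z - p) - (p + t • (z - p)) = (t' - t) • (z - p) := by
        rw [sub_smul]; abel
      rw [this, norm_smul]
      rw [mem_ball, Real.dist_eq] at ht'
      rw [Real.norm_eq_abs]
      calc |t' - t| * ‖z - p‖ ≤ (ρ / (2 * (‖z - p‖ + 1))) * (‖z - p‖ + 1) := by
            apply mul_le_mul ht'.le (by linarith) (norm_nonneg _) (by positivity)
        _ = ρ / 2 := by field_simp
    calc dist g (p + t • (z - p)) ≤ dist g (p + t' • (z - p)) +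
          dist (p + t' • (z - p)) (p + t • (z - p)) := dist_triangle _ _ _
      _ < ρ := by linarith
  have hW0 : W 0 := by
    rcases hloc p hp with ⟨r, hr, hM⟩ | ⟨r, hr, hT⟩
    · refine ⟨r, hr, ?_⟩
      intro g hg hgp t ht
      simp only [zero_smul, add_zero] at hgp
      exact (conv_seg hM ⟨mem_ball_self hr, hp⟩ ⟨hgp, hg⟩ ht).2
    · refine ⟨r, hr, ?_⟩
      intro g hg hgp t ht
      simp only [zero_smul, add_zero] at hgp
      have h1 : g + (1 - t) • (p - g) = p + t • (g - p) := by
        simp only [sub_smul, one_smul, smul_sub]; abel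
      rw [← h1]
      apply hT g hg hgp (1 - t) ⟨by linarith [ht.2], by linarith [ht.1]⟩
      rw [h1, dist_eq_norm, add_sub_cancel_left, norm_smul, Real.norm_eq_abs, abs_of_nonneg ht.1]
      rw [dist_eq_norm] at hgp
      calc t * ‖g - p‖ ≤ 1 * ‖g - p‖ := by
            apply mul_le_mul_of_nonneg_right ht.2 (norm_nonneg _)
        _ < r := by linarith
  have hall : ∀ t ∈ Icc (0:ℝ) 1, W t := by
    by_contra hcon
    push Not at hcon
    obtain ⟨t1, ht1, hnt1⟩ := hcon
    have hB : IsCompact (Icc (0:ℝ) 1 ∩ {t | W t}ᶜ) :=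
      isCompact_Icc.inter_right hWopen.isClosed_compl
    obtain ⟨t0, ht0, ht0min⟩ := hB.exists_isLeast ⟨t1, ht1, hnt1⟩
    apply ht0.2
    have ht0pos : 0 < t0 := by
      rcases ht0.1.1.lt_or_eq with h | h
      · exact h
      · exfalso; apply ht0.2; rw [← h]; exact hW0
    have hlt : ∀ s, 0 ≤ s → s < t0 → W s := by
      intro s hs0 hs
      by_contra h
      have := ht0min ⟨⟨hs0, hs.le.trans ht0.1.2⟩, h⟩
      linarith
    have hasee : Sees E p (p + t0 • (z - p)) := by
      intro t ht
      have h1 := hz (t * t0) ⟨mul_nonneg ht.1 ht0pos.le, by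
        calc t * t0 ≤ 1 * 1 := mul_le_mul ht.2 ht0.1.2 ht0pos.le zero_le_one
          _ = 1 := one_mul 1⟩
      rwa [add_sub_cancel_left, smul_smul]
    refine star_step hE hloc hasee ?_
    intro β hβ0 hβ1
    rw [add_sub_cancel_left, smul_smul]
    exact hlt (β * t0) (mul_nonneg hβ0 ht0pos.le) (by nlinarith)
  have h1 := hall 1 ⟨zero_le_one, le_rfl⟩
  simpa [hWdef] using h1

/-- The star centre theorem. -/
theorem star_main {E : Set V} (hE : IsClosed E) (hconn : IsPreconnected E) {p : V} (hp : p ∈ E)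
    (hloc : Loc E p) : ∀ z ∈ E, Sees E p z := by
  by_contra hcon
  push Not at hcon
  obtain ⟨z, hzE, hz⟩ := hcon
  choose! ρ hρ0 hρ using fun (y : V) (hy : Sees E p y) => star_open hE hp hloc hy
  set U : Set V := ⋃ y ∈ {y | Sees E p y}, ball y (ρ y) with hU
  have hUo : IsOpen U := isOpen_biUnion fun y _ => isOpen_ball
  have hVo : IsOpen {y | Sees E p y}ᶜ := (isClosed_sees hE p).isOpen_compl
  have hpp : Sees E p p := by
    intro t _; simpa using hp
  obtain ⟨g, hgE, hgU, hgV⟩ := hconn U {y | Sees E p y}ᶜ hUo hVo (by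
      intro y _
      by_cases h : Sees E p y
      · left
        rw [hU, mem_iUnion₂]
        exact ⟨y, h, mem_ball_self (hρ0 y h)⟩
      · right; exact h)
    ⟨p, hp, by rw [hU, mem_iUnion₂]; exact ⟨p, hpp, mem_ball_self (hρ0 p hpp)⟩⟩ ⟨z, hzE, hz⟩
  apply hgV
  rw [hU, mem_iUnion₂] at hgU
  obtain ⟨y, hy, hgy⟩ := hgU
  exact hρ y hy g hgE hgy

end Pool.Agent.H285R2.Star
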