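import Mathlib
import Pool.Agent.H285R2.Star2

set_option autoImplicit false

namespace Pool.Agent.H285R2.Star

open Metric Set

variable {V : Type*} [NormedAddCommGroup V] [InnerProductSpace ℝ V]

/-- The height function argument: if `y` sees `x` and `[x, x + η₀ (p - x)] ⊆ E`, then `y` sees
`x + η (p - x)` for some `η > 0`. -/
lemma tri_step {E : Set V} {p : V} (hloc : Loc E p) {y x : V} (hyx : Sees E y x)
    {η₀ : ℝ} (hη₀ : 0 < η₀) (hη₀1 : η₀ ≤ 1) (hxn : ∀ s ∈ Icc (0:ℝ) η₀, x + s • (p - x) ∈ E) :
    ∃ η > 0, η ≤ η₀ ∧ Sees E y (x + η • (p - x)) := by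
  set a : ℝ → V := fun t => y + t • (x - y) with ha
  set v : V := p - x with hv
  have haE : ∀ t ∈ Icc (0:ℝ) 1, a t ∈ E := hyx
  set W : ℝ → Prop := fun t => ∃ η > 0, η ≤ η₀ ∧
    ∀ t' ∈ Icc t 1, ∀ s ∈ Icc (0:ℝ) η, a t' + (t' * s) • v ∈ E with hW
  have hW1 : W 1 := by
    refine ⟨η₀, hη₀, le_rfl, ?_⟩
    intro t' ht' s hs
    have h1 : t' = 1 := le_antisymm ht'.2 ht'.1
    subst h1
    have h2 : a 1 = x := by simp [ha]
    rw [h2, one_mul]
    exact hxn s hs
  have hWmono : ∀ t t' : ℝ, t ≤ t' → W t → W t' := by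
    rintro t t' htt' ⟨η, hη, hη1, h⟩
    exact ⟨η, hη, hη1, fun t'' ht'' => h t'' ⟨htt'.trans ht''.1, ht''.2⟩⟩
  have hdist : ∀ s t : ℝ, dist (a s) (a t) = |s - t| * ‖x - y‖ := by
    intro s t
    rw [dist_eq_norm]
    have : a s - a t = (s - t) • (x - y) := by simp only [ha, sub_smul]; abel
    rw [this, norm_smul, Real.norm_eq_abs]
  -- the local statement
  have hlocal : ∀ t0 ∈ Icc (0:ℝ) 1, (∀ δ > 0, ∃ t2 ∈ Icc (0:ℝ) 1, t0 ≤ t2 ∧ t2 < t0 + δ ∧ W t2) →
      W 0 ∨ ∃ δ > 0, W (max (t0 - δ) 0) := by
    intro t0 ht0 hnear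
    rcases hloc (a t0) (haE t0 ht0) with ⟨r, hr, hM⟩ | ⟨r, hr, hT⟩
    · -- convex
      set δ1 : ℝ := r / (2 * (‖x - y‖ + 1)) with hδ1
      have hδ1pos : 0 < δ1 := by positivity
      have hδ1r : δ1 * ‖x - y‖ < r / 2 := by
        calc δ1 * ‖x - y‖ < δ1 * (‖x - y‖ + 1) := by
              apply mul_lt_mul_of_pos_left (by linarith) hδ1pos
          _ = r / 2 := by rw [hδ1]; field_simp
      obtain ⟨t2, ht2, ht02, ht2δ, η2, hη2, hη2', hW2⟩ := hnear δ1 hδ1pos
      by_cases hcase : t0 ≤ δ1
      · -- base point y
        left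
        rcases ht2.1.lt_or_eq with ht2pos | ht2z
        · refine ⟨min η2 (r / (2 * (‖v‖ + 1))), lt_min hη2 (by positivity),
            (min_le_left _ _).trans hη2', ?_⟩
          intro t' ht' s hs
          rcases le_total t' t2 with h | h
          · have hsη : s ≤ η2 := hs.2.trans (min_le_left _ _)
            have hsv : s * ‖v‖ < r / 2 := by
              calc s * ‖v‖ ≤ (r / (2 * (‖v‖ + 1))) * ‖v‖ := by
                    apply mul_le_mul_of_nonneg_right (hs.2.trans (min_le_right _ _)) (norm_nonneg _)
                _ < (r / (2 * (‖v‖ + 1))) * (‖v‖ + 1) := by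
                    apply mul_lt_mul_of_pos_left (by linarith) (by positivity)
                _ = r / 2 := by field_simp
            have h1 : a t2 + (t2 * s) • v ∈ ball (a t0) r ∩ E := by
              refine ⟨?_, hW2 t2 ⟨le_rfl, ht2.2⟩ s ⟨hs.1, hsη⟩⟩
              rw [mem_ball, dist_eq_norm]
              have h2 : a t2 + (t2 * s) • v - a t0 = (a t2 - a t0) + (t2 * s) • v := by abel
              rw [h2]
              refine lt_of_le_of_lt (norm_add_le _ _) ?_
              rw [← dist_eq_norm, hdist, norm_smul, Real.norm_eq_abs,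
                abs_of_nonneg (by linarith : 0 ≤ t2 - t0),
                abs_of_nonneg (mul_nonneg ht2.1 hs.1)]
              have h3 : (t2 - t0) * ‖x - y‖ ≤ δ1 * ‖x - y‖ :=
                mul_le_mul_of_nonneg_right (by linarith) (norm_nonneg _)
              have h4 : t2 * s * ‖v‖ ≤ s * ‖v‖ := by
                apply mul_le_mul_of_nonneg_right _ (norm_nonneg _)
                exact mul_le_of_le_one_left hs.1 ht2.2
              linarith
            have h0 : a 0 ∈ ball (a t0) r ∩ E := by
              refine ⟨?_, haE 0 ⟨le_rfl, zero_le_one⟩⟩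
              rw [mem_ball, hdist, zero_sub, abs_neg, abs_of_nonneg ht0.1]
              have h3 : t0 * ‖x - y‖ ≤ δ1 * ‖x - y‖ :=
                mul_le_mul_of_nonneg_right hcase (norm_nonneg _)
              linarith
            have h5 := conv_seg hM h0 h1 (t := t' / t2)
              ⟨div_nonneg ht'.1 ht2pos.le, by rw [div_le_one ht2pos]; exact h⟩
            have h6 : a 0 + (t' / t2) • (a t2 + (t2 * s) • v - a 0) = a t' + (t' * s) • v := by
              simp only [ha, zero_smul, add_zero]
              have h7 : y + t2 • (x - y) + (t2 * s) • v - y = t2 • (x - y) + (t2 * s) • v := by abel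
              rw [h7, smul_add, smul_smul, smul_smul, div_mul_cancel₀ _ ht2pos.ne']
              have h8 : t' / t2 * (t2 * s) = t' * s := by field_simp
              rw [h8]; abel
            rw [h6] at h5
            exact h5.2
          · exact hW2 t' ⟨h, ht'.2⟩ s ⟨hs.1, hs.2.trans (min_le_left _ _)⟩
        · rw [← ht2z] at hW2
          exact ⟨η2, hη2, hη2', hW2⟩
      · -- base point a (t0 - δ1)
        push Not at hcase
        right
        refine ⟨δ1 / 2, by linarith, ?_⟩
        rw [max_eq_left (by linarith)]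
        obtain ⟨t1, ht1⟩ : ∃ t1, t1 = t0 - δ1 := ⟨_, rfl⟩
        have ht1pos : 0 < t1 := by linarith
        have ht2t1 : 0 < t2 - t1 := by linarith
        have ht2pos : 0 < t2 := by linarith
        -- s2 = t' s (t2 - t1) / ((t' - t1) t2) ≤ s * C
        set C : ℝ := (t2 - t1) / (δ1 / 2 * t2) with hC
        have hCpos : 0 < C := by positivity
        refine ⟨min η2 (min (η2 / C) (r / (2 * (‖v‖ + 1)) / C)), ?_, ?_, ?_⟩
        · exact lt_min hη2 (lt_min (by positivity) (by positivity))
        · exact (min_le_left _ _).trans hη2'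
        intro t' ht' s hs
        rcases le_total t' t2 with h | h
        · have hd : δ1 / 2 ≤ t' - t1 := by linarith [ht'.1]
          have hd0 : 0 < t' - t1 := by linarith
          set s2 : ℝ := t' * s * (t2 - t1) / ((t' - t1) * t2) with hs2
          have ht'0 : 0 ≤ t' := by linarith [ht'.1]
          have hs2nn : 0 ≤ s2 := by
            apply div_nonneg
            · exact mul_nonneg (mul_nonneg ht'0 hs.1) ht2t1.le
            · positivity
          have hs2C : s2 ≤ s * C := by
            rw [hs2, hC, mul_div_assoc']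
            rw [div_le_div_iff₀ (by positivity) (by positivity)]
            have h1 : t' * s * (t2 - t1) ≤ s * (t2 - t1) := by
              apply mul_le_mul_of_nonneg_right _ ht2t1.le
              exact mul_le_of_le_one_left hs.1 ht'.2
            have h2 : δ1 / 2 * t2 ≤ (t' - t1) * t2 := mul_le_mul_of_nonneg_right hd ht2pos.le
            apply mul_le_mul h1 h2 (by positivity)
            exact mul_nonneg hs.1 ht2t1.le
          have hs2η : s2 ≤ η2 := by
            refine hs2C.trans ?_
            calc s * C ≤ (η2 / C) * C := by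
                  apply mul_le_mul_of_nonneg_right _ hCpos.le
                  exact hs.2.trans ((min_le_right _ _).trans (min_le_left _ _))
              _ = η2 := by field_simp
          have hs2v : s2 * ‖v‖ < r / 2 := by
            have h1 : s2 ≤ r / (2 * (‖v‖ + 1)) := by
              refine hs2C.trans ?_
              calc s * C ≤ (r / (2 * (‖v‖ + 1)) / C) * C := by
                    apply mul_le_mul_of_nonneg_right _ hCpos.le
                    exact hs.2.trans ((min_le_right _ _).trans (min_le_right _ _))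
                _ = r / (2 * (‖v‖ + 1)) := by field_simp
            calc s2 * ‖v‖ ≤ (r / (2 * (‖v‖ + 1))) * ‖v‖ :=
                  mul_le_mul_of_nonneg_right h1 (norm_nonneg _)
              _ < (r / (2 * (‖v‖ + 1))) * (‖v‖ + 1) := by
                  apply mul_lt_mul_of_pos_left (by linarith) (by positivity)
              _ = r / 2 := by field_simp
          have h1 : a t2 + (t2 * s2) • v ∈ ball (a t0) r ∩ E := by
            refine ⟨?_, hW2 t2 ⟨le_rfl, ht2.2⟩ s2 ⟨hs2nn, hs2η⟩⟩
            rw [mem_ball, dist_eq_norm]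
            have h2 : a t2 + (t2 * s2) • v - a t0 = (a t2 - a t0) + (t2 * s2) • v := by abel
            rw [h2]
            refine lt_of_le_of_lt (norm_add_le _ _) ?_
            rw [← dist_eq_norm, hdist, norm_smul, Real.norm_eq_abs,
              abs_of_nonneg (by linarith : 0 ≤ t2 - t0),
              abs_of_nonneg (mul_nonneg ht2.1 hs2nn)]
            have h3 : (t2 - t0) * ‖x - y‖ ≤ δ1 * ‖x - y‖ :=
              mul_le_mul_of_nonneg_right (by linarith) (norm_nonneg _)
            have h4 : t2 * s2 * ‖v‖ ≤ s2 * ‖v‖ := by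
              apply mul_le_mul_of_nonneg_right _ (norm_nonneg _)
              exact mul_le_of_le_one_left hs2nn ht2.2
            linarith
          have h0 : a t1 ∈ ball (a t0) r ∩ E := by
            refine ⟨?_, haE t1 ⟨ht1pos.le, by linarith [ht0.2]⟩⟩
            rw [mem_ball, hdist]
            have : t1 - t0 = -δ1 := by rw [ht1]; ring
            rw [this, abs_neg, abs_of_pos hδ1pos]
            linarith
          have h5 := conv_seg hM h0 h1 (t := (t' - t1) / (t2 - t1))
            ⟨div_nonneg hd0.le ht2t1.le, by rw [div_le_one ht2t1]; linarith⟩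
          have h6 : a t1 + ((t' - t1) / (t2 - t1)) • (a t2 + (t2 * s2) • v - a t1) =
              a t' + (t' * s) • v := by
            simp only [ha]
            have h7 : y + t2 • (x - y) + (t2 * s2) • v - (y + t1 • (x - y)) =
                (t2 - t1) • (x - y) + (t2 * s2) • v := by rw [sub_smul]; abel
            rw [h7, smul_add, smul_smul, smul_smul, div_mul_cancel₀ _ ht2t1.ne']
            have h8 : (t' - t1) / (t2 - t1) * (t2 * s2) = t' * s := by
              rw [hs2]; field_simp
            rw [h8, sub_smul]; abel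
          rw [h6] at h5
          exact h5.2
        · exact hW2 t' ⟨h, ht'.2⟩ s ⟨hs.1, hs.2.trans (min_le_left _ _)⟩
    · -- closed under moving towards p
      right
      set δ : ℝ := min (1/2) (r / (4 * (‖x - y‖ + ‖v‖ + 1))) with hδ
      have hδpos : 0 < δ := lt_min (by norm_num) (by positivity)
      have hδh : δ ≤ 1/2 := min_le_left _ _
      have hδr : δ * (3 * ‖x - y‖ + ‖v‖) < r := by
        calc δ * (3 * ‖x - y‖ + ‖v‖) < δ * (4 * (‖x - y‖ + ‖v‖ + 1)) := by
              apply mul_lt_mul_of_pos_left _ hδpos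
              nlinarith [norm_nonneg (x - y), norm_nonneg v]
          _ ≤ (r / (4 * (‖x - y‖ + ‖v‖ + 1))) * (4 * (‖x - y‖ + ‖v‖ + 1)) := by
              apply mul_le_mul_of_nonneg_right (min_le_right _ _) (by positivity)
          _ = r := by field_simp
      obtain ⟨t2, ht2, ht02, ht2δ, η2, hη2, hη2', hW2⟩ := hnear δ hδpos
      refine ⟨δ, hδpos, min η2 δ, lt_min hη2 hδpos, (min_le_left _ _).trans hη2', ?_⟩
      intro t' ht' s hs
      rcases le_total t' t2 with h | h
      · have ht'0 : 0 ≤ t' := (le_max_right _ _).trans ht'.1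
        have hsδ : s ≤ δ := hs.2.trans (min_le_right _ _)
        have hts : t' * s ≤ 1/2 := by
          calc t' * s ≤ 1 * (1/2) := mul_le_mul ht'.2 (hsδ.trans hδh) hs.1 zero_le_one
            _ = 1/2 := one_mul _
        have hts0 : 0 ≤ t' * s := mul_nonneg ht'0 hs.1
        have hpos : 0 < 1 - t' * s := by linarith
        have htt : |t' - t0| ≤ δ := by
          rw [abs_le]
          constructor
          · have := (le_max_left (t0 - δ) 0).trans ht'.1
            linarith
          · linarith
        set t'' : ℝ := t' * (1 - s) / (1 - t' * s) with ht''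
        have ht''0 : 0 ≤ t'' := div_nonneg (mul_nonneg ht'0 (by linarith)) hpos.le
        have ht''1 : t'' ≤ 1 := by
          rw [ht'', div_le_one hpos]
          nlinarith [ht'.2]
        have hdiff : |t'' - t'| ≤ 2 * s := by
          have h1 : t'' - t' = -(t' * s * (1 - t') / (1 - t' * s)) := by
            rw [ht'']; field_simp; ring
          rw [h1, abs_neg, abs_of_nonneg (div_nonneg (mul_nonneg hts0 (by linarith [ht'.2])) hpos.le),
            div_le_iff₀ hpos]
          have h2 : t' * s * (1 - t') ≤ s := by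
            have h3 : t' * (1 - t') ≤ 1 := by nlinarith [ht'.2]
            calc t' * s * (1 - t') = s * (t' * (1 - t')) := by ring
              _ ≤ s * 1 := mul_le_mul_of_nonneg_left h3 hs.1
              _ = s := mul_one s
          have h4 : s ≤ 2 * s * (1 - t' * s) := by nlinarith [hs.1]
          linarith
        have htar : a t'' + (t' * s) • (p - a t'') = a t' + (t' * s) • v := by
          simp only [ha, hv]
          have h1 : (1 - t' * s) * t'' = t' * (1 - s) := by rw [ht'']; field_simp
          have h2 : y + t'' • (x - y) + (t' * s) • (p - (y + t'' • (x - y))) =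
              (1 - t' * s) • y + ((1 - t' * s) * t'') • (x - y) + (t' * s) • p := by
            simp only [sub_smul, one_smul, smul_sub, smul_add, mul_smul]; abel
          rw [h2, h1]
          simp only [sub_smul, one_smul, smul_sub, mul_smul, smul_add]
          have h3 : s • y = s • y := rfl
          abel_nf
        rw [← htar]
        apply hT (a t'') (haE t'' ⟨ht''0, ht''1⟩)
        · rw [hdist]
          have h1 : |t'' - t0| ≤ 3 * δ := by
            calc |t'' - t0| = |(t'' - t') + (t' - t0)| := by ring_nf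
              _ ≤ |t'' - t'| + |t' - t0| := abs_add_le _ _
              _ ≤ 2 * s + δ := add_le_add hdiff htt
              _ ≤ 3 * δ := by linarith
          calc |t'' - t0| * ‖x - y‖ ≤ 3 * δ * ‖x - y‖ :=
                mul_le_mul_of_nonneg_right h1 (norm_nonneg _)
            _ ≤ δ * (3 * ‖x - y‖ + ‖v‖) := by nlinarith [norm_nonneg v, norm_nonneg (x - y)]
            _ < r := hδr
        · exact ⟨hts0, by linarith⟩
        · rw [htar]
          have h2 : a t' + (t' * s) • v - a t0 = (a t' - a t0) + (t' * s) • v := by abel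
          rw [dist_eq_norm, h2]
          refine lt_of_le_of_lt (norm_add_le _ _) ?_
          rw [← dist_eq_norm, hdist, norm_smul, Real.norm_eq_abs, abs_of_nonneg hts0]
          have h3 : |t' - t0| * ‖x - y‖ ≤ δ * ‖x - y‖ :=
            mul_le_mul_of_nonneg_right htt (norm_nonneg _)
          have h4 : t' * s * ‖v‖ ≤ δ * ‖v‖ := by
            apply mul_le_mul_of_nonneg_right _ (norm_nonneg _)
            calc t' * s ≤ 1 * δ := mul_le_mul ht'.2 hsδ hs.1 zero_le_one
              _ = δ := one_mul _
          nlinarith [norm_nonneg (x - y), norm_nonneg v]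
      · exact hW2 t' ⟨h, ht'.2⟩ s ⟨hs.1, hs.2.trans (min_le_left _ _)⟩
  -- the infimum argument
  have hW0 : W 0 := by
    by_contra hW0
    set T : Set ℝ := {t | t ∈ Icc (0:ℝ) 1 ∧ W t} with hT
    have hTne : T.Nonempty := ⟨1, ⟨zero_le_one, le_rfl⟩, hW1⟩
    have hTb : BddBelow T := ⟨0, fun t ht => ht.1.1⟩
    set t0 := sInf T with ht0
    have ht0m : t0 ∈ Icc (0:ℝ) 1 :=
      ⟨le_csInf hTne (fun t ht => ht.1.1), csInf_le hTb ⟨⟨zero_le_one, le_rfl⟩, hW1⟩⟩
    have hnear : ∀ δ > 0, ∃ t2 ∈ Icc (0:ℝ) 1, t0 ≤ t2 ∧ t2 < t0 + δ ∧ W t2 := by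
      intro δ hδ
      obtain ⟨t2, ht2, hlt⟩ := exists_lt_of_csInf_lt hTne (show sInf T < t0 + δ by linarith)
      exact ⟨t2, ht2.1, csInf_le hTb ht2, hlt, ht2.2⟩
    rcases hlocal t0 ht0m hnear with h | ⟨δ, hδ, h⟩
    · exact hW0 h
    · have h1 : max (t0 - δ) 0 ∈ T :=
        ⟨⟨le_max_right _ _, max_le (by linarith [ht0m.2]) zero_le_one⟩, h⟩
      have h2 : t0 ≤ max (t0 - δ) 0 := csInf_le hTb h1
      rcases le_max_iff.mp h2 with h3 | h3
      · linarith
      · have h4 : t0 = 0 := le_antisymm h3 ht0m.1
        rw [h4, max_eq_right (by linarith)] at h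
        exact hW0 h
  obtain ⟨η, hη, hη1, h⟩ := hW0
  refine ⟨η, hη, hη1, ?_⟩
  intro t ht
  have h1 := h t ht η ⟨hη.le, le_rfl⟩
  have h2 : y + t • (x + η • (p - x) - y) = a t + (t * η) • v := by
    simp only [ha, hv]
    have : x + η • (p - x) - y = (x - y) + η • (p - x) := by abel
    rw [this, smul_add, smul_smul]; abel
  rw [h2]; exact h1

end Pool.Agent.H285R2.Star
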