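import Mathlib
import Pool.Agent.H285R2.Star3

set_option autoImplicit false

namespace Pool.Agent.H285R2.Star

open Metric Set

variable {V : Type*} [NormedAddCommGroup V] [InnerProductSpace ℝ V]

/-- If `y` sees `x` and `[x, x + σ (p - x)] ⊆ E`, then `y` sees `x + σ (p - x)`. -/
lemma tri_full {E : Set V} (hE : IsClosed E) {p : V} (hloc : Loc E p) {y x : V}
    (hyx : Sees E y x) {σ : ℝ} (hσ0 : 0 ≤ σ) (hσ1 : σ ≤ 1)
    (hx : ∀ s ∈ Icc (0:ℝ) σ, x + s • (p - x) ∈ E) : Sees E y (x + σ • (p - x)) := by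
  set K : Set ℝ := Icc 0 σ ∩ {τ | Sees E y (x + τ • (p - x))} with hK
  have hKc : IsCompact K := isCompact_Icc.inter_right
    ((isClosed_sees hE y).preimage (by fun_prop : Continuous fun τ : ℝ => x + τ • (p - x)))
  have hKne : K.Nonempty := ⟨0, ⟨le_rfl, hσ0⟩, by simpa using hyx⟩
  obtain ⟨τ, hτK, hτmax⟩ := hKc.exists_isGreatest hKne
  rcases hτK.1.2.lt_or_eq with hlt | heq
  · exfalso
    have h1τ : 0 < 1 - τ := by linarith
    have hτ0 : 0 ≤ τ := hτK.1.1
    have hpx : p - (x + τ • (p - x)) = (1 - τ) • (p - x) := by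
      rw [sub_smul, one_smul]; abel
    have hη₀ : 0 < (σ - τ) / (1 - τ) := div_pos (by linarith) h1τ
    have hη₀1 : (σ - τ) / (1 - τ) ≤ 1 := by rw [div_le_one h1τ]; linarith
    have hadd : ∀ s : ℝ, x + τ • (p - x) + s • (p - (x + τ • (p - x))) =
        x + (τ + s * (1 - τ)) • (p - x) := by
      intro s
      rw [hpx, smul_smul, add_smul]; abel
    obtain ⟨η, hη, hη1, hsee⟩ := tri_step hloc hτK.2 hη₀ hη₀1 (by
      intro s hs
      rw [hadd]
      apply hx
      constructor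
      · have := mul_nonneg hs.1 h1τ.le
        linarith
      · have : s * (1 - τ) ≤ (σ - τ) / (1 - τ) * (1 - τ) :=
          mul_le_mul_of_nonneg_right hs.2 h1τ.le
        rw [div_mul_cancel₀ _ h1τ.ne'] at this
        linarith)
    rw [hadd] at hsee
    have hmem : τ + η * (1 - τ) ∈ K := by
      refine ⟨⟨?_, ?_⟩, hsee⟩
      · have := mul_pos hη h1τ
        linarith
      · have : η * (1 - τ) ≤ (σ - τ) / (1 - τ) * (1 - τ) :=
          mul_le_mul_of_nonneg_right hη1 h1τ.le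
        rw [div_mul_cancel₀ _ h1τ.ne'] at this
        linarith
    have := hτmax hmem
    have h2 := mul_pos hη h1τ
    linarith
  · rw [← heq]; exact hτK.2

/-- From a point `n` of `E` seen from all points of `F` one can move a little towards a point `p`
of the convex hull of `F` without leaving `E`. -/
lemma move_step {E : Set V} {p n : V} (hloc : Loc E p) {F : Set V} (hF : ∀ y ∈ F, Sees E y n)
    (hnE : n ∈ E) (hp : p ∈ convexHull ℝ F) :
    ∃ s₀ > 0, s₀ ≤ 1 ∧ ∀ s ∈ Icc (0:ℝ) s₀, n + s • (p - n) ∈ E := by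
  have key : ∀ q : V, ∀ r > 0, ∃ s₀ > 0, s₀ ≤ 1 ∧ ∀ s ∈ Icc (0:ℝ) s₀, dist (n + s • (q - n)) n < r := by
    intro q r hr
    refine ⟨min 1 (r / (2 * (‖q - n‖ + 1))), lt_min one_pos (by positivity), min_le_left _ _, ?_⟩
    intro s hs
    rw [dist_eq_norm, add_sub_cancel_left, norm_smul, Real.norm_eq_abs, abs_of_nonneg hs.1]
    calc s * ‖q - n‖ ≤ (r / (2 * (‖q - n‖ + 1))) * (‖q - n‖ + 1) := by
          apply mul_le_mul (hs.2.trans (min_le_right _ _)) (by linarith) (norm_nonneg _)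
            (by positivity)
      _ = r / 2 := by field_simp
      _ < r := by linarith
  rcases hloc n hnE with ⟨r, hr, hM⟩ | ⟨r, hr, hT⟩
  · set C : Set V := {q | ∃ s₀ > 0, s₀ ≤ 1 ∧ ∀ s ∈ Icc (0:ℝ) s₀, n + s • (q - n) ∈ ball n r ∩ E}
      with hC
    have hCconv : Convex ℝ C := by
      rintro q ⟨s1, hs1, hs1', h1⟩ q' ⟨s2, hs2, hs2', h2⟩ a b ha hb hab
      refine ⟨min s1 s2, lt_min hs1 hs2, (min_le_left _ _).trans hs1', ?_⟩
      intro s hs
      have h3 := hM (h1 s ⟨hs.1, hs.2.trans (min_le_left _ _)⟩)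
        (h2 s ⟨hs.1, hs.2.trans (min_le_right _ _)⟩) ha hb hab
      have h4 : a • (n + s • (q - n)) + b • (n + s • (q' - n)) =
          n + s • (a • q + b • q' - n) := by
        have h5 : n = a • n + b • n := by rw [← add_smul, hab, one_smul]
        have h6 : a • q + b • q' - n = a • (q - n) + b • (q' - n) := by
          nth_rewrite 1 [h5]
          simp only [smul_sub]; abel
        rw [h6]
        nth_rewrite 5 [h5]
        simp only [smul_add, smul_sub, smul_comm a s, smul_comm b s]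
        abel
      rwa [h4] at h3
    have hFC : F ⊆ C := by
      intro y hy
      obtain ⟨s₀, hs₀, hs₀1, h⟩ := key y r hr
      refine ⟨s₀, hs₀, hs₀1, ?_⟩
      intro s hs
      exact ⟨h s hs, (hF y hy).symm s ⟨hs.1, hs.2.trans hs₀1⟩⟩
    obtain ⟨s₀, hs₀, hs₀1, h⟩ := convexHull_min hFC hCconv hp
    exact ⟨s₀, hs₀, hs₀1, fun s hs => (h s hs).2⟩
  · obtain ⟨s₀, hs₀, hs₀1, h⟩ := key p r hr
    refine ⟨s₀, hs₀, hs₀1, ?_⟩
    intro s hs
    exact hT n hnE (by rw [dist_self]; exact hr) s ⟨hs.1, hs.2.trans hs₀1⟩ (h s hs)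

/-- If `x` is seen from all points of `F` and `p` is in the convex hull of `F`, then `x` sees `p`
in `E`. -/
lemma sees_center {E : Set V} (hE : IsClosed E) {p : V} (hloc : Loc E p) {F : Set V} {x : V}
    (hxE : x ∈ E) (hF : ∀ y ∈ F, Sees E y x) (hp : p ∈ convexHull ℝ F) : Sees E x p := by
  set K : Set ℝ := Icc 0 1 ∩ {τ | Sees E x (x + τ • (p - x))} with hK
  have hKc : IsCompact K := isCompact_Icc.inter_right
    ((isClosed_sees hE x).preimage (by fun_prop : Continuous fun τ : ℝ => x + τ • (p - x)))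
  have hKne : K.Nonempty := ⟨0, ⟨le_rfl, zero_le_one⟩, by
    intro t _; simpa using hxE⟩
  obtain ⟨τ, hτK, hτmax⟩ := hKc.exists_isGreatest hKne
  rcases hτK.1.2.lt_or_eq with hlt | heq
  · exfalso
    have h1τ : 0 < 1 - τ := by linarith
    have hτ0 : 0 ≤ τ := hτK.1.1
    have hseg : ∀ s ∈ Icc (0:ℝ) τ, x + s • (p - x) ∈ E := by
      intro s hs
      rcases hτ0.lt_or_eq with h | h
      · have h1 := hτK.2 (s / τ) ⟨div_nonneg hs.1 h.le, by rw [div_le_one h]; exact hs.2⟩
        rw [add_sub_cancel_left, smul_smul, div_mul_cancel₀ _ h.ne'] at h1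
        exact h1
      · have : s = 0 := le_antisymm (hs.2.trans h.symm.le) hs.1
        rw [this]; simpa using hxE
    have hn : ∀ y ∈ F, Sees E y (x + τ • (p - x)) := fun y hy =>
      tri_full hE hloc (hF y hy) hτ0 hτK.1.2 hseg
    obtain ⟨s₀, hs₀, hs₀1, hs⟩ := move_step hloc hn (hseg τ ⟨hτ0, le_rfl⟩) hp
    have hpx : p - (x + τ • (p - x)) = (1 - τ) • (p - x) := by
      rw [sub_smul, one_smul]; abel
    have hadd : ∀ s : ℝ, x + τ • (p - x) + s • (p - (x + τ • (p - x))) =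
        x + (τ + s * (1 - τ)) • (p - x) := by
      intro s
      rw [hpx, smul_smul, add_smul]; abel
    have hpos : 0 < s₀ * (1 - τ) := mul_pos hs₀ h1τ
    have hmem : τ + s₀ * (1 - τ) ∈ K := by
      refine ⟨⟨by linarith, ?_⟩, ?_⟩
      · nlinarith
      · intro t ht
        rw [add_sub_cancel_left, smul_smul]
        rcases le_total (t * (τ + s₀ * (1 - τ))) τ with h | h
        · exact hseg _ ⟨mul_nonneg ht.1 (by linarith), h⟩
        · have h1 := hs ((t * (τ + s₀ * (1 - τ)) - τ) / (1 - τ))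
            ⟨div_nonneg (by linarith) h1τ.le, by
              rw [div_le_iff₀ h1τ]
              have : t * (τ + s₀ * (1 - τ)) ≤ 1 * (τ + s₀ * (1 - τ)) :=
                mul_le_mul_of_nonneg_right ht.2 (by linarith)
              linarith⟩
          rw [hadd, div_mul_cancel₀ _ h1τ.ne'] at h1
          have h2 : τ + (t * (τ + s₀ * (1 - τ)) - τ) = t * (τ + s₀ * (1 - τ)) := by ring
          rwa [h2] at h1
    have := hτmax hmem
    linarith
  · have h1 := hτK.2
    rw [heq] at h1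
    simpa using h1

/-- The locally non-convex points. -/
def LNC (E : Set V) : Set V := {x | x ∈ frontier E ∧ ∀ r > 0, ¬ Convex ℝ (ball x r ∩ E)}

lemma isClosed_LNC (E : Set V) : IsClosed (LNC E) := by
  rw [← isOpen_compl_iff, Metric.isOpen_iff]
  intro x hx
  by_cases hfr : x ∈ frontier E
  · have : ∃ r > 0, Convex ℝ (ball x r ∩ E) := by
      by_contra h
      push Not at h
      exact hx ⟨hfr, h⟩
    obtain ⟨r, hr, hM⟩ := this
    refine ⟨r / 2, by linarith, ?_⟩
    intro z hz hzL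
    apply hzL.2 (r / 2) (by linarith)
    have : ball z (r / 2) ∩ E = ball z (r / 2) ∩ (ball x r ∩ E) := by
      ext w
      constructor
      · rintro ⟨h1, h2⟩
        refine ⟨h1, ?_, h2⟩
        rw [mem_ball] at h1 hz ⊢
        calc dist w x ≤ dist w z + dist z x := dist_triangle _ _ _
          _ < r := by linarith
      · rintro ⟨h1, _, h2⟩
        exact ⟨h1, h2⟩
    rw [this]
    exact (convex_ball z _).inter hM
  · have h1 : IsOpen (frontier E)ᶜ := isClosed_frontier.isOpen_compl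
    obtain ⟨r, hr, h⟩ := Metric.isOpen_iff.mp h1 x hfr
    exact ⟨r, hr, fun z hz hzL => h hz hzL.1⟩

lemma LNC_subset {E : Set V} (hE : IsClosed E) : LNC E ⊆ E := fun _ hx => hE.frontier_subset hx.1

lemma convex_of_not_LNC {E : Set V} {x : V} (hx : x ∈ E) (hL : x ∉ LNC E) :
    ∃ r > 0, Convex ℝ (ball x r ∩ E) := by
  by_cases hfr : x ∈ frontier E
  · by_contra h
    push Not at h
    exact hL ⟨hfr, h⟩
  · have h1 : x ∈ interior E := by
      by_contra h2
      exact hfr ⟨subset_closure hx, h2⟩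
    rw [mem_interior_iff_mem_nhds, Metric.mem_nhds_iff] at h1
    obtain ⟨r, hr, h⟩ := h1
    refine ⟨r, hr, ?_⟩
    rw [inter_eq_left.mpr h]
    exact convex_ball x r

/-- Uniform version of the visibility hypothesis. -/
lemma uniform {E : Set V} (hE : IsCompact E) {m : ℕ}
    (hC : ∀ x : Fin m → V, (∀ i, x i ∈ LNC E) → ∃ y ∈ E, ∀ i, ∃ r > 0, ∀ z ∈ E,
      dist z (x i) < r → Sees E y z) :
    ∃ ρ > 0, ∃ Y : Finset V, ∀ x : Fin m → V, (∀ i, x i ∈ LNC E) → ∃ y ∈ Y, ∀ i, ∀ z ∈ E,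
      dist z (x i) < ρ → Sees E y z := by
  have hL : IsCompact (LNC E) :=
    hE.of_isClosed_subset (isClosed_LNC E) (LNC_subset hE.isClosed)
  have hK : IsCompact (Set.pi univ fun _ : Fin m => LNC E) := isCompact_univ_pi fun _ => hL
  have main : ∃ ρ > 0, ∃ Y : Finset V, ∀ x ∈ (Set.pi univ fun _ : Fin m => LNC E),
      ∃ y ∈ Y, ∀ i, ∀ z ∈ E, dist z (x i) < ρ → Sees E y z := by
    refine hK.induction_on (p := fun S => ∃ ρ > 0, ∃ Y : Finset V, ∀ x ∈ S,
      ∃ y ∈ Y, ∀ i, ∀ z ∈ E, dist z (x i) < ρ → Sees E y z) ?_ ?_ ?_ ?_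
    · exact ⟨1, one_pos, ∅, fun x hx => absurd hx (notMem_empty x)⟩
    · rintro S T hST ⟨ρ, hρ, Y, h⟩
      exact ⟨ρ, hρ, Y, fun x hx => h x (hST hx)⟩
    · rintro S T ⟨ρ, hρ, Y, h⟩ ⟨ρ', hρ', Y', h'⟩
      classical
      refine ⟨min ρ ρ', lt_min hρ hρ', Y ∪ Y', ?_⟩
      rintro x (hx | hx)
      · obtain ⟨y, hy, hyz⟩ := h x hx
        exact ⟨y, Finset.mem_union_left _ hy, fun i z hz hd =>
          hyz i z hz (hd.trans_le (min_le_left _ _))⟩
      · obtain ⟨y, hy, hyz⟩ := h' x hx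
        exact ⟨y, Finset.mem_union_right _ hy, fun i z hz hd =>
          hyz i z hz (hd.trans_le (min_le_right _ _))⟩
    · intro x hx
      obtain ⟨y, hyE, hy⟩ := hC x (fun i => hx i (mem_univ i))
      choose r hr0 hr using hy
      obtain ⟨ρ, hρ, hρr⟩ : ∃ ρ > 0, ∀ i, 2 * ρ ≤ r i := by
        rcases isEmpty_or_nonempty (Fin m) with he | hne
        · exact ⟨1, one_pos, fun i => (he.false i).elim⟩
        · obtain ⟨i0, hi0⟩ := Finite.exists_min r
          exact ⟨r i0 / 2, half_pos (hr0 i0), fun i => by linarith [hi0 i]⟩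
      refine ⟨ball x ρ, mem_nhdsWithin_of_mem_nhds (ball_mem_nhds x hρ), ρ, hρ, {y}, ?_⟩
      intro x' hx'
      refine ⟨y, Finset.mem_singleton_self y, ?_⟩
      intro i z hz hd
      apply hr i z hz
      have h1 : dist (x' i) (x i) < ρ := lt_of_le_of_lt (dist_le_pi_dist x' x i) hx'
      calc dist z (x i) ≤ dist z (x' i) + dist (x' i) (x i) := dist_triangle _ _ _
        _ < 2 * ρ := by linarith
        _ ≤ r i := hρr i
  obtain ⟨ρ, hρ, Y, h⟩ := main
  exact ⟨ρ, hρ, Y, fun x hx => h x (fun i _ => hx i)⟩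

/-- The main theorem. -/
theorem starshaped_of_prop [FiniteDimensional ℝ V] {E : Set V} (hE : IsCompact E)
    (hconn : IsConnected E)
    (hC : ∀ x : Fin (Module.finrank ℝ V + 1) → V, (∀ i, x i ∈ LNC E) → ∃ y ∈ E, ∀ i, ∃ r > 0,
      ∀ z ∈ E, dist z (x i) < r → Sees E y z) :
    ∃ p ∈ E, ∀ z ∈ E, Sees E p z := by
  by_cases hL : (LNC E).Nonempty
  · obtain ⟨ρ, hρ, Y, hY⟩ := uniform hE hC
    set F : LNC E → Set V := fun x => {y | y ∈ Y ∧ ∀ z ∈ E, dist z x < ρ → Sees E y z} with hF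
    have hFfin : ∀ x, (F x).Finite := fun x => Y.finite_toSet.subset fun y hy => hy.1
    have hhelly : (⋂ x, convexHull ℝ (F x)).Nonempty := by
      apply Convex.helly_theorem_compact' (𝕜 := ℝ)
      · intro x; exact convex_convexHull ℝ _
      · intro x; exact (hFfin x).isCompact_convexHull ℝ
      · intro I hI
        rcases I.eq_empty_or_nonempty with rfl | ⟨i0, hi0⟩
        · simp
        · obtain ⟨f, hf⟩ : ∃ f : Fin (Module.finrank ℝ V + 1) → LNC E, ∀ i ∈ I, ∃ j, f j = i := by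
            refine ⟨fun j => if h : j.1 < I.card then (I.equivFin.symm ⟨j.1, h⟩).1 else i0, ?_⟩
            intro i hi
            refine ⟨⟨(I.equivFin ⟨i, hi⟩).1, lt_of_lt_of_le (I.equivFin ⟨i, hi⟩).2 hI⟩, ?_⟩
            have h1 : (I.equivFin ⟨i, hi⟩).1 < I.card := (I.equivFin ⟨i, hi⟩).2
            simp only [h1, dite_true]
            simp
          obtain ⟨y, hyY, hy⟩ := hY (fun j => (f j : V)) (fun j => (f j).2)
          refine ⟨y, ?_⟩
          rw [mem_iInter₂]
          intro i hi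
          obtain ⟨j, rfl⟩ := hf i hi
          exact subset_convexHull ℝ _ ⟨hyY, fun z hz hd => hy j z hz hd⟩
    obtain ⟨p, hp⟩ := hhelly
    rw [mem_iInter] at hp
    have hloc : Loc E p := by
      intro x hx
      by_cases hxL : x ∈ LNC E
      · right
        exact ⟨ρ, hρ, toward_of_hull hE.isClosed (F := F ⟨x, hxL⟩)
          (fun y hy z hz hd => hy.2 z hz hd) (hp ⟨x, hxL⟩)⟩
      · left; exact convex_of_not_LNC hx hxL
    obtain ⟨x, hxL⟩ := hL
    have hxE : x ∈ E := LNC_subset hE.isClosed hxL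
    have hsee : Sees E x p := sees_center hE.isClosed hloc hxE (F := F ⟨x, hxL⟩)
      (fun y hy => hy.2 x hxE (by simpa using hρ)) (hp ⟨x, hxL⟩)
    exact ⟨p, hsee.right, star_main hE.isClosed hconn.isPreconnected hsee.right hloc⟩
  · obtain ⟨p, hp⟩ := hconn.nonempty
    rw [not_nonempty_iff_eq_empty] at hL
    have hloc : Loc E p := fun x hx => Or.inl (convex_of_not_LNC hx (by rw [hL]; exact notMem_empty x))
    exact ⟨p, hp, star_main hE.isClosed hconn.isPreconnected hp hloc⟩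

end Pool.Agent.H285R2.Star
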